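import Mathlib

/-!
The divisor bound `d(n) ≤ C_ε n^ε`.
-/

set_option autoImplicit false

namespace Pool.Agent.H41.Eis

open Finset

/-- **Divisor bound.** -/
theorem divisor_bound (ε : ℝ) (hε : 0 < ε) :
    ∃ C : ℝ, 1 ≤ C ∧ ∀ n : ℕ, 1 ≤ n → (n.divisors.card : ℝ) ≤ C * (n:ℝ) ^ ε := by
  have hl2 : 0 < Real.log 2 := Real.log_pos (by norm_num)
  set A : ℝ := max 1 (1 / (ε * Real.log 2)) with hA
  have hA1 : 1 ≤ A := le_max_left _ _
  have hA2 : 1 ≤ A * (ε * Real.log 2) := by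
    have h1 : 1 / (ε * Real.log 2) ≤ A := le_max_right _ _
    rwa [div_le_iff₀ (by positivity)] at h1
  -- small primes
  have hsmall : ∀ p : ℕ, 2 ≤ p → ∀ e : ℕ, ((e:ℝ) + 1) ≤ A * ((p:ℝ) ^ e) ^ ε := by
    intro p hp e
    have hp2 : (2:ℝ) ≤ p := by exact_mod_cast hp
    have h1 : ((2:ℝ)^e)^ε ≤ ((p:ℝ) ^ e) ^ ε :=
      Real.rpow_le_rpow (by positivity) (pow_le_pow_left₀ (by norm_num) hp2 e) hε.le
    have h2 : ((2:ℝ)^e)^ε = Real.exp (e * (ε * Real.log 2)) := by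
      rw [Real.rpow_def_of_pos (by positivity), Real.log_pow]
      congr 1; ring
    have h3 : (e:ℝ) * (ε * Real.log 2) + 1 ≤ Real.exp (e * (ε * Real.log 2)) :=
      Real.add_one_le_exp _
    have he0 : (0:ℝ) ≤ e := Nat.cast_nonneg e
    calc (e:ℝ) + 1 ≤ A * (e * (ε * Real.log 2) + 1) := by nlinarith
      _ ≤ A * ((p:ℝ) ^ e) ^ ε := by
        refine mul_le_mul_of_nonneg_left ?_ (by linarith)
        rw [← h2] at h3
        exact h3.trans h1
  -- large primes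
  have hlarge : ∀ p : ℕ, (2:ℝ) ≤ (p:ℝ)^ε → ∀ e : ℕ, ((e:ℝ) + 1) ≤ ((p:ℝ) ^ e) ^ ε := by
    intro p hp e
    have h1 : ((p:ℝ) ^ e) ^ ε = ((p:ℝ)^ε)^e := by
      rw [← Real.rpow_natCast, ← Real.rpow_mul (Nat.cast_nonneg p), mul_comm,
        Real.rpow_mul (Nat.cast_nonneg p), Real.rpow_natCast]
    rw [h1]
    have h2 : (2:ℝ)^e ≤ ((p:ℝ)^ε)^e := pow_le_pow_left₀ (by norm_num) hp e
    refine le_trans ?_ h2
    have : e + 1 ≤ 2^e := Nat.lt_two_pow_self
    exact_mod_cast this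
  set K : ℕ := ⌈(2:ℝ)^(1/ε)⌉₊ with hK
  have hKlarge : ∀ p : ℕ, K ≤ p → (2:ℝ) ≤ (p:ℝ)^ε := by
    intro p hp
    have h1 : (2:ℝ)^(1/ε) ≤ p := (Nat.le_ceil _).trans (by exact_mod_cast hp)
    have h2 := Real.rpow_le_rpow (by positivity) h1 hε.le
    rwa [← Real.rpow_mul (by norm_num), one_div, inv_mul_cancel₀ hε.ne', Real.rpow_one] at h2
  refine ⟨A^K, one_le_pow₀ hA1, fun n hn => ?_⟩
  have hn0 : n ≠ 0 := by omega
  rw [Nat.card_divisors hn0]
  have hprod : (n:ℝ)^ε = ∏ p ∈ n.primeFactors, (((p:ℝ) ^ (n.factorization p)) ^ ε) := by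
    conv_lhs => rw [← Nat.prod_factorization_pow_eq_self hn0]
    rw [Finsupp.prod, Nat.support_factorization]
    push_cast
    rw [Real.finsetProd_rpow _ _ (fun p _ => by positivity)]
  push_cast
  rw [hprod]
  have hstep : ∀ p ∈ n.primeFactors, ((n.factorization p : ℝ) + 1) ≤
      (if p < K then A else 1) * ((p:ℝ) ^ (n.factorization p)) ^ ε := by
    intro p hp
    have hpp := (Nat.prime_of_mem_primeFactors hp).two_le
    split_ifs with h
    · exact hsmall p hpp _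
    · rw [one_mul]; exact hlarge p (hKlarge p (not_lt.1 h)) _
  refine (Finset.prod_le_prod (fun p _ => by positivity) hstep).trans ?_
  rw [Finset.prod_mul_distrib]
  refine mul_le_mul_of_nonneg_right ?_ (Finset.prod_nonneg fun p _ => by positivity)
  rw [Finset.prod_ite, Finset.prod_const_one, mul_one, Finset.prod_const]
  refine pow_le_pow_right₀ hA1 ?_
  calc (n.primeFactors.filter (· < K)).card ≤ (Finset.range K).card :=
        Finset.card_le_card (fun p hp => Finset.mem_range.2 (Finset.mem_filter.1 hp).2)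
    _ = K := Finset.card_range K

end Pool.Agent.H41.Eis
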