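import Mathlib

/-!
Eisenstein integers `a + b ρ`, `ρ = e^{iπ/3}`, as pairs of integers.
-/

set_option autoImplicit false

namespace Pool.Agent.H41.Eis

/-- Norm form `a² + ab + b²`. -/
def nrm (z : ℤ × ℤ) : ℤ := z.1^2 + z.1*z.2 + z.2^2

/-- Multiplication. -/
def emul (z w : ℤ × ℤ) : ℤ × ℤ := (z.1*w.1 - z.2*w.2, z.1*w.2 + z.2*w.1 + z.2*w.2)

/-- Conjugation. -/
def econj (z : ℤ × ℤ) : ℤ × ℤ := (z.1 + z.2, -z.2)

/-- Determinant. -/
def edet (z w : ℤ × ℤ) : ℤ := z.1*w.2 - z.2*w.1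

lemma nrm_emul (z w : ℤ × ℤ) : nrm (emul z w) = nrm z * nrm w := by
  simp only [nrm, emul]; ring

lemma nrm_econj (z : ℤ × ℤ) : nrm (econj z) = nrm z := by
  simp only [nrm, econj]; ring

lemma emul_econj_self (z : ℤ × ℤ) : emul z (econj z) = (nrm z, 0) := by
  simp only [nrm, emul, econj, Prod.mk.injEq]; constructor <;> ring

lemma emul_comm (z w : ℤ × ℤ) : emul z w = emul w z := by
  simp only [emul, Prod.mk.injEq]; constructor <;> ring

lemma emul_assoc (z w v : ℤ × ℤ) : emul (emul z w) v = emul z (emul w v) := by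
  simp only [emul, Prod.mk.injEq]; constructor <;> ring

lemma nrm_nonneg (z : ℤ × ℤ) : 0 ≤ nrm z := by
  simp only [nrm]; nlinarith [sq_nonneg (z.1 + z.2), sq_nonneg z.1, sq_nonneg z.2]

lemma nrm_eq_zero_iff (z : ℤ × ℤ) : nrm z = 0 ↔ z = 0 := by
  constructor
  · intro h
    simp only [nrm] at h
    have h1 : z.1^2 = 0 := by nlinarith [sq_nonneg (z.1 + z.2), sq_nonneg z.1, sq_nonneg z.2]
    have h2 : z.2^2 = 0 := by nlinarith [sq_nonneg (z.1 + z.2), sq_nonneg z.1, sq_nonneg z.2]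
    exact Prod.ext (pow_eq_zero_iff (two_ne_zero) |>.1 h1) (pow_eq_zero_iff (two_ne_zero) |>.1 h2)
  · rintro rfl; simp [nrm]

lemma nrm_pos {z : ℤ × ℤ} (hz : z ≠ 0) : 0 < nrm z :=
  lt_of_le_of_ne (nrm_nonneg z) fun h => hz ((nrm_eq_zero_iff z).1 h.symm)

lemma emul_ne_zero {z w : ℤ × ℤ} (hz : z ≠ 0) (hw : w ≠ 0) : emul z w ≠ 0 := by
  intro h
  have := nrm_emul z w
  rw [h] at this
  have h1 := nrm_pos hz
  have h2 := nrm_pos hw
  have h3 : nrm (0 : ℤ × ℤ) = 0 := by simp [nrm]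
  rw [h3] at this
  have := mul_pos h1 h2
  omega

lemma econj_ne_zero {z : ℤ × ℤ} (hz : z ≠ 0) : econj z ≠ 0 := by
  intro h
  have h1 := nrm_econj z
  rw [h] at h1
  have h3 : nrm (0 : ℤ × ℤ) = 0 := by simp [nrm]
  have := nrm_pos hz
  omega

/-- `ρ = e^{iπ/3}`. -/
noncomputable def rho : ℂ := ⟨1/2, √3/2⟩

/-- The complex number `a + b ρ`. -/
noncomputable def toC (z : ℤ × ℤ) : ℂ := (z.1 : ℂ) + (z.2 : ℂ) * rho

lemma toC_re (z : ℤ × ℤ) : (toC z).re = z.1 + z.2 / 2 := by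
  simp [toC, rho]; ring

lemma toC_im (z : ℤ × ℤ) : (toC z).im = z.2 * (√3 / 2) := by
  simp [toC, rho]

lemma rho_sq : rho * rho = rho - 1 := by
  have h3 : √3 * √3 = 3 := Real.mul_self_sqrt (by norm_num)
  apply Complex.ext
  · simp [rho]; nlinarith
  · simp [rho]; ring

lemma toC_emul (z w : ℤ × ℤ) : toC (emul z w) = toC z * toC w := by
  simp only [toC, emul]
  push_cast
  linear_combination (-(z.2 : ℂ) * (w.2 : ℂ)) * rho_sq

lemma toC_econj (z : ℤ × ℤ) : toC (econj z) = (starRingEnd ℂ) (toC z) := by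
  apply Complex.ext
  · rw [toC_re, Complex.conj_re, toC_re]; simp [econj]; ring
  · rw [toC_im, Complex.conj_im, toC_im]; simp [econj]

lemma normSq_toC (z : ℤ × ℤ) : Complex.normSq (toC z) = nrm z := by
  have h3 : √3 * √3 = 3 := Real.mul_self_sqrt (by norm_num)
  rw [Complex.normSq_apply, toC_re, toC_im]
  simp only [nrm]
  push_cast
  nlinarith

lemma norm_toC_sq (z : ℤ × ℤ) : ‖toC z‖ ^ 2 = nrm z := by
  rw [← Complex.normSq_eq_norm_sq, normSq_toC]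

lemma toC_ne_zero {z : ℤ × ℤ} (hz : z ≠ 0) : toC z ≠ 0 := by
  intro h
  have := normSq_toC z
  rw [h, Complex.normSq_zero] at this
  have h2 : nrm z = 0 := by exact_mod_cast this.symm
  exact hz ((nrm_eq_zero_iff z).1 h2)

/-- `N(z) N(w) = x² + x y + y²` with `x = ac + ad + bd`, `y = - det`. -/
lemma nrm_mul_nrm (z w : ℤ × ℤ) :
    emul z (econj w) = (z.1*w.1 + z.1*w.2 + z.2*w.2, -edet z w) := by
  simp only [emul, econj, edet, Prod.mk.injEq]; constructor <;> ring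

lemma sq_le_nrm_fst (z : ℤ × ℤ) : 3 * z.1^2 ≤ 4 * nrm z := by
  simp only [nrm]; nlinarith [sq_nonneg (z.1 + 2*z.2)]

lemma sq_le_nrm_snd (z : ℤ × ℤ) : 3 * z.2^2 ≤ 4 * nrm z := by
  simp only [nrm]; nlinarith [sq_nonneg (2*z.1 + z.2)]

end Pool.Agent.H41.Eis
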