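import Pool.Agent.H41.Eis.Cover

/-!
The chain of rotations and the lower bound for the number of mixed bad pairs.
-/

set_option autoImplicit false

namespace Pool.Agent.H41.Eis

open Finset Real

/-- Quadratic characters of `K*/Q*`. -/
structure IsChar (h : ℤ × ℤ → ℤ) : Prop where
  val : ∀ z, z ≠ 0 → h z = 1 ∨ h z = -1
  mul : ∀ z w, z ≠ 0 → w ≠ 0 → h (emul z w) = h z * h w
  int : ∀ n : ℤ, n ≠ 0 → h (n, 0) = 1

lemma IsChar.scale {h : ℤ × ℤ → ℤ} (hc : IsChar h) (n : ℤ) (z : ℤ × ℤ) (hn : n ≠ 0) (hz : z ≠ 0) :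
    h (n * z.1, n * z.2) = h z := by
  have h1 : ((n * z.1, n * z.2) : ℤ × ℤ) = emul (n, 0) z := by
    simp only [emul, Prod.mk.injEq]; constructor <;> ring
  have h2 : ((n, 0) : ℤ × ℤ) ≠ 0 := by
    intro h0; exact hn (congrArg Prod.fst h0)
  rw [h1, hc.mul _ _ h2 hz, hc.int n hn, one_mul]

lemma IsChar.sq {h : ℤ × ℤ → ℤ} (hc : IsChar h) (z : ℤ × ℤ) (hz : z ≠ 0) : h z * h z = 1 := by
  rcases hc.val z hz with h1 | h1 <;> rw [h1] <;> norm_num

lemma IsChar.conj {h : ℤ × ℤ → ℤ} (hc : IsChar h) (z : ℤ × ℤ) (hz : z ≠ 0) :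
    h (econj z) = h z := by
  have h1 : h (emul z (econj z)) = 1 := by
    rw [emul_econj_self]
    exact hc.int _ (nrm_pos hz).ne'
  rw [hc.mul _ _ hz (econj_ne_zero hz)] at h1
  have h2 := hc.sq z hz
  rcases hc.val z hz with h3 | h3 <;> rw [h3] at h1 ⊢ <;> linarith

/-- Sum of angles of a list. -/
noncomputable def sumAng (L : List (ℤ × ℤ)) : ℝ := (L.map ang).sum

/-- Product of the values of `h` on a list. -/
def prodH (h : ℤ × ℤ → ℤ) (L : List (ℤ × ℤ)) : ℤ := (L.map h).prod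

/-- Good directions. -/
def Good (h : ℤ × ℤ → ℤ) (τ M : ℝ) (n : ℕ) (θ : ℝ) : Prop :=
  (∃ a : ℤ × ℤ, a ≠ 0 ∧ ‖toC a‖ ≤ 2 * n ∧ W (τ/2) θ a) ∧
  (∀ a b : ℤ × ℤ, a ≠ 0 → b ≠ 0 → ‖toC a‖ ≤ M → ‖toC b‖ ≤ M → W τ θ a → W τ θ b → h a = h b)

lemma norm_toC_emul (z w : ℤ × ℤ) : ‖toC (emul z w)‖ = ‖toC z‖ * ‖toC w‖ := by
  rw [toC_emul, norm_mul]

lemma chain (h : ℤ × ℤ → ℤ) (hc : IsChar h) {τ T M : ℝ} {n : ℕ} (hτ : 0 ≤ τ) (hT : 1 ≤ T)
    (hTM : 2 * n * T ≤ M) :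
    ∀ L : List (ℤ × ℤ), (∀ s ∈ L, s ≠ 0 ∧ ‖toC s‖ ≤ T) → ∀ (θ : ℝ) (a : ℤ × ℤ), a ≠ 0 →
      ‖toC a‖ ≤ 2 * n → W (τ/2) θ a →
      (∀ i ≤ L.length, Good h τ M n (θ + sumAng (L.take i))) →
      ∀ b : ℤ × ℤ, b ≠ 0 → ‖toC b‖ ≤ M → W τ (θ + sumAng L) b → h b = h a * prodH h L := by
  intro L
  have h2nM : (2 * n : ℝ) ≤ M := by
    refine le_trans ?_ hTM
    have : (0:ℝ) ≤ 2 * n := by positivity
    nlinarith
  induction L with
  | nil =>
    intro _ θ a ha haM hWa hgood b hb hbM hWb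
    have hg := hgood 0 le_rfl
    simp only [List.take_nil, sumAng, List.map_nil, List.sum_nil, add_zero] at hg hWb
    simp only [prodH, List.map_nil, List.prod_nil, mul_one]
    exact hg.2 b a hb ha hbM (haM.trans h2nM) hWb (W_mono (by linarith) hWa)
  | cons s L ih =>
    intro hL θ a ha haM hWa hgood b hb hbM hWb
    obtain ⟨hs0, hsT⟩ := hL s (List.mem_cons_self)
    have hg1 : Good h τ M n (θ + ang s) := by
      have := hgood 1 (by simp)
      simpa [sumAng] using this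
    obtain ⟨a1, ha1, ha1M, hWa1⟩ := hg1.1
    -- `a s` in the window
    have has : emul a s ≠ 0 := emul_ne_zero ha hs0
    have hWas : W (τ/2) (θ + ang s) (emul a s) := W_rot hWa
    have hasM : ‖toC (emul a s)‖ ≤ M := by
      rw [norm_toC_emul]
      refine le_trans ?_ hTM
      exact mul_le_mul haM hsT (norm_nonneg _) (by positivity)
    have heq : h (emul a s) = h a1 :=
      hg1.2 _ _ has ha1 hasM (ha1M.trans h2nM) (W_mono (by linarith) hWas)
        (W_mono (by linarith) hWa1)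
    have hih := ih (fun t ht => hL t (List.mem_cons_of_mem _ ht)) (θ + ang s) a1 ha1 ha1M hWa1
      (fun i hi => by
        have := hgood (i+1) (by simp; omega)
        simp only [List.take_succ_cons, sumAng, List.map_cons, List.sum_cons] at this
        rw [add_assoc]
        exact this) b hb hbM (by
        simp only [sumAng, List.map_cons, List.sum_cons] at hWb
        rw [add_assoc]
        exact hWb)
    rw [hih, ← heq, hc.mul a s ha hs0]
    simp only [prodH, List.map_cons, List.prod_cons]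
    ring

/-- **Lower bound for the number of mixed bad pairs.** -/
theorem pairs_lower (h : ℤ × ℤ → ℤ) (hc : IsChar h) {τ T M δ : ℝ} {n : ℕ} (hτ0 : 0 < τ)
    (hτ1 : τ ≤ 1) (hT : 1 ≤ T) (hn : 0 < n) (hTM : 2 * n * T ≤ M)
    (L : List (ℤ × ℤ)) (hL : ∀ s ∈ L, s ≠ 0 ∧ ‖toC s‖ ≤ T) (l : ℤ)
    (hsum : sumAng L = δ + l * π) (hδ : |δ| ≤ τ / 8) (hprod : prodH h L = -1)
    (P : Finset (ℤ × ℤ))
    (hP : ∀ q q' : ℤ × ℤ, q ≠ 0 → q' ≠ 0 → edet q q' = 1 → h q ≠ h q' →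
      ((TypeB q ∧ ¬ TypeB q') ∨ (¬ TypeB q ∧ TypeB q')) → ‖toC q‖ ≤ 3 * M → ‖toC q'‖ ≤ 3 * M →
      q ∈ P) :
    1 ≤ 3 * (((L.length : ℝ) + 1) * (P.card * τ + 48 / (τ * ((n:ℝ) + 1)^2))) := by
  have hn1 : (0:ℝ) < (n:ℝ) + 1 := by positivity
  have h2nM : (2 * n : ℝ) ≤ M := by
    refine le_trans ?_ hTM
    have : (0:ℝ) ≤ 2 * n := by positivity
    nlinarith
  have hM0 : 0 ≤ M := le_trans (by positivity) h2nM
  set R : ℕ := ⌊3 / (τ * ((n:ℝ)+1))⌋₊ with hR
  -- each direction has a bad translate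
  have hbad : ∀ θ : ℝ, ∃ i ≤ L.length, ¬ Good h τ M n (θ + sumAng (L.take i)) := by
    intro θ
    by_contra hcon
    push Not at hcon
    have hg0 := hcon 0 (Nat.zero_le _)
    simp only [List.take_zero, sumAng, List.map_nil, List.sum_nil, add_zero] at hg0
    obtain ⟨a, ha, haM, hWa⟩ := hg0.1
    have hWfin : W τ (θ + sumAng L) a := by
      rw [hsum, ← add_assoc]
      exact W_int_pi l (W_shift hτ0 hτ1 hδ hWa)
    have := chain h hc hτ0.le hT hTM L hL θ a ha haM hWa hcon a ha (haM.trans h2nM) hWfin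
    rw [hprod] at this
    rcases hc.val a ha with h1 | h1 <;> rw [h1] at this <;> norm_num at this
  -- what happens at a bad direction
  have hbad2 : ∀ ψ : ℝ, ¬ Good h τ M n ψ →
      (∃ q ∈ P, |sin (ψ - ang q)| ≤ τ) ∨
      (∃ j ∈ Icc 1 R, ∃ a ∈ (box j : Finset (ℤ × ℤ)),
        |sin (ψ - ang a)| ≤ 2 / (((n:ℝ)+1) * j)) := by
    intro ψ hng
    by_cases hE : ∃ a : ℤ × ℤ, a ≠ 0 ∧ ‖toC a‖ ≤ 2 * n ∧ W (τ/2) ψ a
    · left
      have hconst : ¬ (∀ a b : ℤ × ℤ, a ≠ 0 → b ≠ 0 → ‖toC a‖ ≤ M → ‖toC b‖ ≤ M → W τ ψ a →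
          W τ ψ b → h a = h b) := fun hh => hng ⟨hE, hh⟩
      push Not at hconst
      obtain ⟨a, b, ha, hb, haM, hbM, hWa, hWb, hab⟩ := hconst
      obtain ⟨q, q', hq0, hq0', hdet, hne, hmix, hWq, hqM, hqM'⟩ :=
        bad_pair_of_window h (fun n z hn hz => hc.scale n z hn hz) hM0 ha hb hWa hWb haM hbM hab
      exact ⟨q, hP q q' hq0 hq0' hdet hne hmix hqM hqM', sin_le_of_W hτ0.le hq0 hWq⟩
    · right
      push Not at hE
      obtain ⟨a, ha0, haY, haN⟩ := dirichlet_dir ψ n hn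
      have hnrm_norm : ‖toC a‖ ≤ 2 * n := by
        have h1 := norm_toC_sq a
        have h2 : ((nrm a : ℤ) : ℝ) ≤ 3 * (n:ℝ)^2 := by exact_mod_cast haN
        have h3 : ‖toC a‖^2 ≤ (2 * n)^2 := by rw [h1]; nlinarith [sq_nonneg (n:ℝ)]
        exact le_of_sq_le_sq h3 (by positivity)
      have hnW := hE a ha0 hnrm_norm
      unfold W at hnW
      push Not at hnW
      -- `|X| < 2/(τ(n+1))`
      have hX : |Xc ψ a| < 2 / (τ * ((n:ℝ)+1)) := by
        have h1 : τ / 2 * |Xc ψ a| < 1 / ((n:ℝ)+1) := hnW.trans_le haY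
        rw [lt_div_iff₀ (by positivity)]
        rw [lt_div_iff₀ hn1] at h1
        linarith
      have hXY := XY_sq ψ a
      set B : ℝ := 1 / (τ * ((n:ℝ)+1)) with hB
      have hB0 : 0 < B := by positivity
      have hXB : |Xc ψ a| < 2 * B := by
        have : 2 / (τ * ((n:ℝ)+1)) = 2 * B := by rw [hB]; ring
        rw [← this]; exact hX
      have hYB : |Yc ψ a| ≤ B := by
        refine haY.trans ?_
        rw [hB, one_div, one_div]
        refine inv_anti₀ (by positivity) ?_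
        nlinarith
      have hnrmB : ((nrm a : ℤ) : ℝ) ≤ 5 * B^2 := by
        rw [← hXY, ← sq_abs (Xc ψ a), ← sq_abs (Yc ψ a)]
        have h1 : |Xc ψ a|^2 ≤ (2*B)^2 := pow_le_pow_left₀ (abs_nonneg _) hXB.le 2
        have h2 : |Yc ψ a|^2 ≤ B^2 := pow_le_pow_left₀ (abs_nonneg _) hYB 2
        nlinarith
      set j : ℕ := max a.1.natAbs a.2.natAbs with hj
      have hjnrm : 3 * (j:ℝ)^2 ≤ 4 * ((nrm a : ℤ) : ℝ) := by
        have h1 := sq_le_nrm_fst a
        have h2 := sq_le_nrm_snd a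
        have h3 : 3 * (j:ℤ)^2 ≤ 4 * nrm a := by
          rcases max_choice a.1.natAbs a.2.natAbs with h | h
          · rw [hj, h, Int.natAbs_sq]; exact h1
          · rw [hj, h, Int.natAbs_sq]; exact h2
        exact_mod_cast h3
      have hj1 : 1 ≤ j := by
        by_contra hcon
        have hj0 : j = 0 := by omega
        apply ha0
        have h1 : a.1.natAbs ≤ j := le_max_left _ _
        have h2 : a.2.natAbs ≤ j := le_max_right _ _
        apply Prod.ext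
        · simp only [Prod.fst_zero]; omega
        · simp only [Prod.snd_zero]; omega
      have hj0' : (0:ℝ) < j := by exact_mod_cast hj1
      have hjB : (j:ℝ) ≤ 3 * B := by
        have h1 : (j:ℝ)^2 ≤ (3*B)^2 := by nlinarith
        exact le_of_sq_le_sq h1 (by positivity)
      refine ⟨j, ?_, a, Int.mem_box.2 rfl, ?_⟩
      · rw [Finset.mem_Icc]
        refine ⟨hj1, Nat.le_floor ?_⟩
        have : 3 / (τ * ((n:ℝ)+1)) = 3 * B := by rw [hB]; ring
        rw [this]; exact hjB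
      · -- sine bound
        have hpos : 0 < ‖toC a‖ := norm_pos_iff.2 (toC_ne_zero ha0)
        have h1 : |Yc ψ a| = ‖toC a‖ * |sin (ψ - ang a)| := by
          rw [Yc_eq, abs_mul, abs_of_pos hpos]
          congr 1
          have : sin (ang a - ψ) = - sin (ψ - ang a) := by rw [← sin_neg]; congr 1; ring
          rw [this, abs_neg]
        have h2 : (j:ℝ) ≤ 2 * ‖toC a‖ := by
          have h3 : (j:ℝ)^2 ≤ (2 * ‖toC a‖)^2 := by
            rw [mul_pow, norm_toC_sq]; nlinarith [sq_nonneg (j:ℝ)]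
          exact le_of_sq_le_sq h3 (by positivity)
        rw [le_div_iff₀ (by positivity)]
        have h4 : ‖toC a‖ * |sin (ψ - ang a)| ≤ 1 / ((n:ℝ)+1) := by rw [← h1]; exact haY
        rw [le_div_iff₀ hn1] at h4
        have h5 : 0 ≤ |sin (ψ - ang a)| * ((n:ℝ)+1) := by positivity
        calc |sin (ψ - ang a)| * (((n:ℝ)+1) * j) = (|sin (ψ - ang a)| * ((n:ℝ)+1)) * j := by ring
          _ ≤ (|sin (ψ - ang a)| * ((n:ℝ)+1)) * (2 * ‖toC a‖) := mul_le_mul_of_nonneg_left h2 h5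
          _ = 2 * (‖toC a‖ * |sin (ψ - ang a)| * ((n:ℝ)+1)) := by ring
          _ ≤ 2 := by linarith
  -- covering
  set S : Finset ((ℕ × (ℤ × ℤ)) ⊕ (ℕ × (Σ _ : ℕ, (ℤ × ℤ)))) :=
    (range (L.length + 1) ×ˢ P).disjSum
      (range (L.length + 1) ×ˢ ((Icc 1 R).sigma fun j => (box j : Finset (ℤ × ℤ)))) with hS
  set c : ((ℕ × (ℤ × ℤ)) ⊕ (ℕ × (Σ _ : ℕ, (ℤ × ℤ)))) → ℝ := fun x =>
    match x with
    | Sum.inl y => ang y.2 - sumAng (L.take y.1)
    | Sum.inr y => ang y.2.2 - sumAng (L.take y.1) with hcdef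
  set d : ((ℕ × (ℤ × ℤ)) ⊕ (ℕ × (Σ _ : ℕ, (ℤ × ℤ)))) → ℝ := fun x =>
    match x with
    | Sum.inl _ => τ
    | Sum.inr y => 2 / (((n:ℝ)+1) * (y.2.1 : ℝ)) with hddef
  have hd0 : ∀ x ∈ S, 0 ≤ d x := by
    rintro (x | x) _
    · exact hτ0.le
    · simp only [hddef]; positivity
  have hcover := cover S c d hd0 (fun θ _ => by
    obtain ⟨i, hi, hng⟩ := hbad θ
    rcases hbad2 _ hng with ⟨q, hq, h1⟩ | ⟨j, hj, a, ha, h1⟩
    · refine ⟨Sum.inl (i, q), ?_, ?_⟩
      · rw [hS, Finset.inl_mem_disjSum, Finset.mem_product]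
        exact ⟨Finset.mem_range.2 (by omega), hq⟩
      · simp only [hcdef, hddef]
        have : θ - (ang q - sumAng (L.take i)) = θ + sumAng (L.take i) - ang q := by ring
        rw [this]; exact h1
    · refine ⟨Sum.inr (i, ⟨j, a⟩), ?_, ?_⟩
      · rw [hS, Finset.inr_mem_disjSum, Finset.mem_product]
        exact ⟨Finset.mem_range.2 (by omega), Finset.mem_sigma.2 ⟨hj, ha⟩⟩
      · simp only [hcdef, hddef]
        have : θ - (ang a - sumAng (L.take i)) = θ + sumAng (L.take i) - ang a := by ring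
        rw [this]; exact h1)
  refine hcover.trans ?_
  refine mul_le_mul_of_nonneg_left ?_ (by norm_num)
  rw [hS, Finset.sum_disjSum]
  have e1 : ∑ x ∈ range (L.length + 1) ×ˢ P, d (Sum.inl x) = ((L.length:ℝ)+1) * (P.card * τ) := by
    simp only [hddef, Finset.sum_const, Finset.card_product, Finset.card_range, nsmul_eq_mul]
    push_cast; ring
  have e2 : ∑ x ∈ range (L.length + 1) ×ˢ ((Icc 1 R).sigma fun j => (box j : Finset (ℤ × ℤ))),
      d (Sum.inr x) ≤ ((L.length:ℝ)+1) * (48 / (τ * ((n:ℝ) + 1)^2)) := by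
    rw [Finset.sum_product]
    simp only [hddef, Finset.sum_const, Finset.card_range, nsmul_eq_mul]
    rw [Finset.sum_sigma]
    have e3 : ∑ j ∈ Icc 1 R, ∑ _a ∈ (box j : Finset (ℤ × ℤ)), (2 / (((n:ℝ)+1) * (j:ℝ))) =
        ∑ _j ∈ Icc 1 R, 16 / ((n:ℝ)+1) := by
      refine Finset.sum_congr rfl fun j hj => ?_
      have hj1 := (Finset.mem_Icc.1 hj).1
      have hj0 : (0:ℝ) < j := by exact_mod_cast hj1
      rw [Finset.sum_const, Int.card_box (by omega), nsmul_eq_mul]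
      push_cast
      field_simp
      ring
    rw [e3, Finset.sum_const, Nat.card_Icc, nsmul_eq_mul]
    push_cast
    refine mul_le_mul_of_nonneg_left ?_ (by positivity)
    have hRle : (R:ℝ) ≤ 3 / (τ * ((n:ℝ)+1)) := Nat.floor_le (by positivity)
    have hR1 : ((R + 1 - 1 : ℕ) : ℝ) = R := by rw [Nat.add_sub_cancel]
    calc (R:ℝ) * (16 / ((n:ℝ)+1)) ≤ (3 / (τ * ((n:ℝ)+1))) * (16 / ((n:ℝ)+1)) :=
          mul_le_mul_of_nonneg_right hRle (by positivity)
      _ = 48 / (τ * ((n:ℝ) + 1)^2) := by field_simp; ring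
  rw [e1, mul_add]
  linarith

end Pool.Agent.H41.Eis
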