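import Pool.Agent.H41.Eis.Many
import Pool.Agent.H41.Eis.Divisor

/-!
From mixed bad pairs to the values of a completely multiplicative function on `3k²+3k+1`.
-/

set_option autoImplicit false

namespace Pool.Agent.H41.Eis

open Finset

/-- The character attached to a completely multiplicative function. -/
def hOf (g : ℕ → ℤ) (z : ℤ × ℤ) : ℤ := g (nrm z).natAbs

lemma isChar_hOf (g : ℕ → ℤ) (hmul : ∀ m n : ℕ, m ≠ 0 → n ≠ 0 → g (m * n) = g m * g n)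
    (hval : ∀ n : ℕ, n ≠ 0 → g n = 1 ∨ g n = -1) : IsChar (hOf g) where
  val := fun z hz => hval _ (by have := nrm_pos hz; omega)
  mul := by
    intro z w hz hw
    unfold hOf
    rw [nrm_emul, Int.natAbs_mul, hmul _ _ (by have := nrm_pos hz; omega)
      (by have := nrm_pos hw; omega)]
  int := by
    intro n hn
    unfold hOf
    have h1 : (nrm (n, 0)).natAbs = n.natAbs * n.natAbs := by
      have : nrm (n, 0) = n * n := by simp only [nrm]; ring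
      rw [this, Int.natAbs_mul]
    rw [h1, hmul _ _ (by omega) (by omega)]
    rcases hval n.natAbs (by omega) with h | h <;> rw [h] <;> norm_num

open Classical in
/-- The finite set of first members of mixed bad pairs of norm at most `3M`. -/
noncomputable def badSet (h : ℤ × ℤ → ℤ) (M : ℕ) : Finset (ℤ × ℤ) :=
  ((Finset.Icc (-(4 * M : ℤ)) (4 * M)) ×ˢ (Finset.Icc (-(4 * M : ℤ)) (4 * M))).filter
    (fun q => ∃ q' : ℤ × ℤ, q ≠ 0 ∧ q' ≠ 0 ∧ edet q q' = 1 ∧ h q ≠ h q' ∧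
      ((TypeB q ∧ ¬ TypeB q') ∨ (¬ TypeB q ∧ TypeB q')) ∧ ‖toC q‖ ≤ 3 * M ∧ ‖toC q'‖ ≤ 3 * M)

lemma mem_badSet (h : ℤ × ℤ → ℤ) (M : ℕ) (q q' : ℤ × ℤ) (h1 : q ≠ 0) (h2 : q' ≠ 0)
    (h3 : edet q q' = 1) (h4 : h q ≠ h q')
    (h5 : (TypeB q ∧ ¬ TypeB q') ∨ (¬ TypeB q ∧ TypeB q')) (h6 : ‖toC q‖ ≤ 3 * M)
    (h7 : ‖toC q'‖ ≤ 3 * M) : q ∈ badSet h M := by
  classical
  unfold badSet
  rw [Finset.mem_filter]
  refine ⟨?_, q', h1, h2, h3, h4, h5, h6, h7⟩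
  have hn : ((nrm q : ℤ) : ℝ) ≤ 9 * (M:ℝ)^2 := by
    rw [← norm_toC_sq]
    calc ‖toC q‖^2 ≤ (3 * M)^2 := pow_le_pow_left₀ (norm_nonneg _) h6 2
      _ = 9 * (M:ℝ)^2 := by ring
  have hn' : nrm q ≤ 9 * (M:ℤ)^2 := by exact_mod_cast hn
  have ha := sq_le_nrm_fst q
  have hb := sq_le_nrm_snd q
  have key : ∀ x : ℤ, 3 * x^2 ≤ 4 * nrm q → -(4 * M : ℤ) ≤ x ∧ x ≤ 4 * M := by
    intro x hx
    have h8 : x^2 ≤ (4 * (M:ℤ))^2 := by nlinarith [sq_nonneg (M:ℤ)]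
    have h9 := abs_le_of_sq_le_sq h8 (by positivity)
    exact abs_le.1 h9
  rw [Finset.mem_product, Finset.mem_Icc, Finset.mem_Icc]
  exact ⟨key _ ha, key _ hb⟩

/-- Upper bound for the number of mixed bad pairs in terms of the bad `k`. -/
lemma card_badSet_le (g : ℕ → ℤ) (hmul : ∀ m n : ℕ, m ≠ 0 → n ≠ 0 → g (m * n) = g m * g n)
    (hval : ∀ n : ℕ, n ≠ 0 → g n = 1 ∨ g n = -1) (M : ℕ) (D : ℝ)
    (hD : ∀ k : ℕ, k ≤ 3 * M^2 → ((3 * (3 * k^2 + 3 * k + 1)).divisors.card : ℝ) ≤ D) :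
    ((badSet (hOf g) M).card : ℝ) ≤ 12 * D *
      (((Finset.range (3 * M^2 + 1)).filter (fun k => g (3 * (3 * k^2 + 3 * k + 1)) = -1)).card : ℝ) := by
  classical
  set P := badSet (hOf g) M with hP
  set B := (Finset.range (3 * M^2 + 1)).filter (fun k => g (3 * (3 * k^2 + 3 * k + 1)) = -1) with hB
  set F : ℤ → Finset (ℤ × ℤ) := fun x => P.filter (fun q => ∃ w, emul q w = (x, -1)) with hF
  have hsub : P ⊆ B.biUnion (fun k => F (-(3 * (k:ℤ) + 1)) ∪ F (3 * (k:ℤ) + 2)) := by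
    intro q hq
    have hq' := hq
    rw [hP] at hq'
    unfold badSet at hq'
    obtain ⟨_, q', h1, h2, h3, h4, h5, h6, h7⟩ := Finset.mem_filter.1 hq'
    obtain ⟨k, hk, hk2⟩ := mixed_value q q' h3 h5
    have hnq : 0 < nrm q := nrm_pos h1
    have hnq' : 0 < nrm q' := nrm_pos h2
    have hkK : k ≤ 3 * M^2 := by
      have hn : ((nrm q : ℤ) : ℝ) ≤ 9 * (M:ℝ)^2 := by
        rw [← norm_toC_sq]
        calc ‖toC q‖^2 ≤ (3 * M)^2 := pow_le_pow_left₀ (norm_nonneg _) h6 2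
          _ = 9 * (M:ℝ)^2 := by ring
      have hn' : ((nrm q' : ℤ) : ℝ) ≤ 9 * (M:ℝ)^2 := by
        rw [← norm_toC_sq]
        calc ‖toC q'‖^2 ≤ (3 * M)^2 := pow_le_pow_left₀ (norm_nonneg _) h7 2
          _ = 9 * (M:ℝ)^2 := by ring
      have hm : nrm q ≤ 9 * (M:ℤ)^2 := by exact_mod_cast hn
      have hm' : nrm q' ≤ 9 * (M:ℤ)^2 := by exact_mod_cast hn'
      have hprod : nrm q * nrm q' ≤ (9 * (M:ℤ)^2) * (9 * (M:ℤ)^2) :=
        mul_le_mul hm hm' hnq'.le (by positivity)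
      rw [hk] at hprod
      by_contra hcon
      push Not at hcon
      have hcon' : 3 * (M:ℤ)^2 + 1 ≤ k := by exact_mod_cast hcon
      nlinarith [sq_nonneg (M:ℤ)]
    have hgk : g (3 * (3 * k^2 + 3 * k + 1)) = -1 := by
      have e1 : (nrm q).natAbs * (nrm q').natAbs = 3 * (3 * k^2 + 3 * k + 1) := by
        rw [← Int.natAbs_mul, hk]
        have : (3 * (3 * (k:ℤ)^2 + 3 * k + 1)) = ((3 * (3 * k^2 + 3 * k + 1) : ℕ) : ℤ) := by push_cast; ring
        rw [this, Int.natAbs_natCast]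
      rw [← e1, hmul _ _ (by omega) (by omega)]
      have h8 : hOf g q ≠ hOf g q' := h4
      unfold hOf at h8
      rcases hval (nrm q).natAbs (by omega) with a | a <;>
        rcases hval (nrm q').natAbs (by omega) with b | b <;> rw [a, b] at h8 ⊢ <;> simp_all
    rw [Finset.mem_biUnion]
    refine ⟨k, ?_, ?_⟩
    · rw [hB, Finset.mem_filter, Finset.mem_range]
      exact ⟨by omega, hgk⟩
    · rw [Finset.mem_union]
      rcases hk2 with h | h
      · left; rw [hF]; exact Finset.mem_filter.2 ⟨hq, econj q', h⟩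
      · right; rw [hF]; exact Finset.mem_filter.2 ⟨hq, econj q', h⟩
  have hFcard : ∀ k : ℕ, k ≤ 3 * M^2 → ∀ x : ℤ, (x = -(3 * (k:ℤ) + 1) ∨ x = 3 * (k:ℤ) + 2) →
      ((F x).card : ℝ) ≤ 6 * D := by
    intro k hk x hx
    have h1 : (F x).card ≤ 6 * (x^2 - x + 1).natAbs.divisors.card :=
      card_divisors_le x (F x) (fun p hp => (Finset.mem_filter.1 hp).2)
    have h2 : (x^2 - x + 1).natAbs = 3 * (3 * k^2 + 3 * k + 1) := by
      have : x^2 - x + 1 = ((3 * (3 * k^2 + 3 * k + 1) : ℕ) : ℤ) := by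
        rcases hx with h | h <;> rw [h] <;> push_cast <;> ring
      rw [this, Int.natAbs_natCast]
    rw [h2] at h1
    have h3 : ((F x).card : ℝ) ≤ 6 * ((3 * (3 * k^2 + 3 * k + 1)).divisors.card : ℝ) := by
      exact_mod_cast h1
    have := hD k hk
    linarith
  have h1 : (P.card : ℝ) ≤ ∑ k ∈ B, (((F (-(3 * (k:ℤ) + 1)) ∪ F (3 * (k:ℤ) + 2)).card : ℕ) : ℝ) := by
    have := (Finset.card_le_card hsub).trans Finset.card_biUnion_le
    exact_mod_cast this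
  refine h1.trans ?_
  have h2 : ∀ k ∈ B, (((F (-(3 * (k:ℤ) + 1)) ∪ F (3 * (k:ℤ) + 2)).card : ℕ) : ℝ) ≤ 12 * D := by
    intro k hk
    have hk1 : k ≤ 3 * M^2 := by
      have := Finset.mem_range.1 (Finset.mem_filter.1 hk).1
      omega
    have h3 := hFcard k hk1 _ (Or.inl rfl)
    have h4 := hFcard k hk1 _ (Or.inr rfl)
    have h5 : (((F (-(3 * (k:ℤ) + 1)) ∪ F (3 * (k:ℤ) + 2)).card : ℕ) : ℝ) ≤
        ((F (-(3 * (k:ℤ) + 1))).card : ℝ) + ((F (3 * (k:ℤ) + 2)).card : ℝ) := by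
      exact_mod_cast Finset.card_union_le _ _
    linarith
  refine (Finset.sum_le_card_nsmul _ _ _ h2).trans (le_of_eq ?_)
  rw [nsmul_eq_mul]
  ring

/-- **Main counting theorem for completely multiplicative functions.** -/
theorem main_g (g : ℕ → ℤ) (hmul : ∀ m n : ℕ, m ≠ 0 → n ≠ 0 → g (m * n) = g m * g n)
    (hval : ∀ n : ℕ, n ≠ 0 → g n = 1 ∨ g n = -1) (z0 : ℤ × ℤ) (hz0 : z0 ≠ 0)
    (hg0 : g (nrm z0).natAbs = -1) (ε : ℝ) (hε : 0 < ε) :
    ∃ X0 : ℕ, ∀ X : ℕ, X0 ≤ X → (X:ℝ)^(1 - ε) ≤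
      (((Finset.Icc 1 X).filter (fun k => g (3 * (3 * k^2 + 3 * k + 1)) = -1)).card : ℝ) := by
  set η : ℝ := min ε 1 / 4 with hη
  have hη0 : 0 < η := by rw [hη]; positivity
  have hη1 : 4 * η ≤ 1 := by rw [hη]; have := min_le_right ε 1; linarith
  have hηε : 4 * η ≤ ε := by rw [hη]; have := min_le_left ε 1; linarith
  clear_value η
  obtain ⟨c, hc0, M0, hM01, hM0⟩ := pairs_many (hOf g) (isChar_hOf g hmul hval) z0 hz0 hg0 η hη0
    (by linarith)
  obtain ⟨C, hC1, hC⟩ := divisor_bound (η / 4) (by positivity)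
  set c1 : ℝ := c / (12 * C * 189) with hc1
  have hc10 : 0 < c1 := by positivity
  -- lower bound in terms of `M`
  have hlow : ∀ M : ℕ, M0 ≤ M → c1 * (M:ℝ)^(2 - 2*η) ≤
      (((Finset.range (3 * M^2 + 1)).filter (fun k => g (3 * (3 * k^2 + 3 * k + 1)) = -1)).card : ℝ) := by
    intro M hM
    have hM1 : (1:ℝ) ≤ M := by exact_mod_cast hM01.trans hM
    have hMpos : (0:ℝ) < M := by linarith
    have h1 := hM0 M hM (badSet (hOf g) M) (fun q q' a1 a2 a3 a4 a5 a6 a7 =>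
      mem_badSet (hOf g) M q q' a1 a2 a3 a4 a5 a6 a7)
    set D : ℝ := C * 189 * (M:ℝ)^η with hDdef
    have hD : ∀ k : ℕ, k ≤ 3 * M^2 → ((3 * (3 * k^2 + 3 * k + 1)).divisors.card : ℝ) ≤ D := by
      intro k hk
      refine (hC _ (by omega)).trans ?_
      have hk' : (k:ℝ) ≤ 3 * (M:ℝ)^2 := by exact_mod_cast hk
      have hk0 : (0:ℝ) ≤ k := Nat.cast_nonneg k
      have hM2 : (1:ℝ) ≤ (M:ℝ)^2 := one_le_pow₀ hM1
      have h2 : ((3 * (3 * k^2 + 3 * k + 1) : ℕ) : ℝ) ≤ 189 * (M:ℝ)^4 := by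
        push_cast
        have h3 : (k:ℝ)^2 ≤ (3 * (M:ℝ)^2)^2 := pow_le_pow_left₀ hk0 hk' 2
        have h4 : (M:ℝ)^4 = (M:ℝ)^2 * (M:ℝ)^2 := by ring
        nlinarith
      have h5 : ((3 * (3 * k^2 + 3 * k + 1) : ℕ) : ℝ)^(η/4) ≤ 189 * (M:ℝ)^η := by
        calc ((3 * (3 * k^2 + 3 * k + 1) : ℕ) : ℝ)^(η/4) ≤ (189 * (M:ℝ)^4)^(η/4) :=
              Real.rpow_le_rpow (by positivity) h2 (by positivity)
          _ = (189:ℝ)^(η/4) * ((M:ℝ)^4)^(η/4) := Real.mul_rpow (by norm_num) (by positivity)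
          _ ≤ 189 * (M:ℝ)^η := by
              refine mul_le_mul ?_ ?_ (by positivity) (by norm_num)
              · calc (189:ℝ)^(η/4) ≤ (189:ℝ)^(1:ℝ) :=
                      Real.rpow_le_rpow_of_exponent_le (by norm_num) (by linarith)
                  _ = 189 := Real.rpow_one _
              · rw [← Real.rpow_natCast (M:ℝ) 4, ← Real.rpow_mul hMpos.le]
                apply le_of_eq; congr 1; push_cast; ring
      rw [hDdef]
      calc C * ((3 * (3 * k^2 + 3 * k + 1) : ℕ) : ℝ)^(η/4) ≤ C * (189 * (M:ℝ)^η) :=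
            mul_le_mul_of_nonneg_left h5 (by linarith)
        _ = _ := by ring
    have h2 := card_badSet_le g hmul hval M D hD
    set B : ℝ := (((Finset.range (3 * M^2 + 1)).filter
      (fun k => g (3 * (3 * k^2 + 3 * k + 1)) = -1)).card : ℝ) with hBdef
    have h3 : c * (M:ℝ)^(2 - η) ≤ 12 * D * B := h1.trans h2
    have hMη : 0 < (M:ℝ)^η := Real.rpow_pos_of_pos hMpos _
    have h4 : (M:ℝ)^(2 - η) = (M:ℝ)^(2 - 2*η) * (M:ℝ)^η := by
      rw [← Real.rpow_add hMpos]; congr 1; ring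
    rw [h4, hDdef] at h3
    have h5 : (c * (M:ℝ)^(2 - 2*η)) * (M:ℝ)^η ≤ (12 * C * 189 * B) * (M:ℝ)^η := by
      calc (c * (M:ℝ)^(2 - 2*η)) * (M:ℝ)^η = c * ((M:ℝ)^(2 - 2*η) * (M:ℝ)^η) := by ring
        _ ≤ 12 * (C * 189 * (M:ℝ)^η) * B := h3
        _ = _ := by ring
    have h6 := le_of_mul_le_mul_right h5 hMη
    rw [hc1, div_mul_eq_mul_div, div_le_iff₀ (by positivity)]
    linarith
  -- pass to `X`
  have htend : Filter.Tendsto (fun X : ℕ => (c1 / 12) * (X:ℝ)^(3 * η)) Filter.atTop Filter.atTop :=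
    Filter.Tendsto.const_mul_atTop (by positivity)
      ((tendsto_rpow_atTop (by positivity)).comp tendsto_natCast_atTop_atTop)
  obtain ⟨X1, hX1⟩ := Filter.eventually_atTop.1 (htend.eventually_ge_atTop 2)
  refine ⟨max X1 (3 * M0^2 + 3), fun X hX => ?_⟩
  have hXa := hX1 X ((le_max_left _ _).trans hX)
  have hXb : 3 * M0^2 + 3 ≤ X := (le_max_right _ _).trans hX
  set M : ℕ := Nat.sqrt (X / 3) with hM
  have hM3 : M * M ≤ X / 3 := Nat.sqrt_le _
  have hM4 : X / 3 < (M + 1) * (M + 1) := Nat.lt_succ_sqrt _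
  have hMX : 3 * M^2 ≤ X := by
    have : M^2 = M * M := sq M
    omega
  have hMM0 : M0 ≤ M := by
    rw [hM, Nat.le_sqrt]
    have : M0^2 = M0 * M0 := sq M0
    omega
  have hM1 : 1 ≤ M := hM01.trans hMM0
  have hX0 : (0:ℝ) < X := by exact_mod_cast (by omega : 0 < X)
  have hX1' : (1:ℝ) ≤ X := by exact_mod_cast (by omega : 1 ≤ X)
  have hM12 : (X:ℝ) ≤ 12 * (M:ℝ)^2 := by
    have h1 : X ≤ 3 * ((M+1) * (M+1)) := by omega
    have h2 : (X:ℝ) ≤ 3 * (((M:ℝ)+1) * ((M:ℝ)+1)) := by exact_mod_cast h1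
    have h3 : (1:ℝ) ≤ M := by exact_mod_cast hM1
    nlinarith
  have h1 := hlow M hMM0
  have hMR : (0:ℝ) < M := by exact_mod_cast hM1
  have h2 : (X:ℝ)^(1 - η) ≤ 12 * (M:ℝ)^(2 - 2*η) := by
    calc (X:ℝ)^(1-η) ≤ (12 * (M:ℝ)^2)^(1-η) := Real.rpow_le_rpow hX0.le hM12 (by linarith)
      _ = (12:ℝ)^(1-η) * ((M:ℝ)^2)^(1-η) := Real.mul_rpow (by norm_num) (by positivity)
      _ ≤ 12 * (M:ℝ)^(2 - 2*η) := by
          refine mul_le_mul ?_ ?_ (by positivity) (by norm_num)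
          · calc (12:ℝ)^(1-η) ≤ (12:ℝ)^(1:ℝ) :=
                  Real.rpow_le_rpow_of_exponent_le (by norm_num) (by linarith)
              _ = 12 := Real.rpow_one _
          · rw [← Real.rpow_natCast (M:ℝ) 2, ← Real.rpow_mul hMR.le]
            apply le_of_eq; congr 1; push_cast; ring
  set Bk : ℝ := (((Finset.range (3 * M^2 + 1)).filter
    (fun k => g (3 * (3 * k^2 + 3 * k + 1)) = -1)).card : ℝ) with hBk
  have h3 : (c1 / 12) * (X:ℝ)^(1-η) ≤ Bk := by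
    refine le_trans ?_ h1
    calc (c1 / 12) * (X:ℝ)^(1-η) ≤ (c1/12) * (12 * (M:ℝ)^(2 - 2*η)) :=
          mul_le_mul_of_nonneg_left h2 (by positivity)
      _ = _ := by ring
  have h4 : (X:ℝ)^(1-η) = (X:ℝ)^(3*η) * (X:ℝ)^(1-4*η) := by
    rw [← Real.rpow_add hX0]; congr 1; ring
  have h5 : 1 ≤ (X:ℝ)^(1-4*η) := Real.one_le_rpow hX1' (by linarith)
  have h6 : 2 * (X:ℝ)^(1-4*η) ≤ Bk := by
    refine le_trans ?_ h3
    rw [h4, ← mul_assoc]
    exact mul_le_mul_of_nonneg_right hXa (by linarith)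
  have h7 : (X:ℝ)^(1-ε) ≤ (X:ℝ)^(1-4*η) := Real.rpow_le_rpow_of_exponent_le hX1' (by linarith)
  -- remove `k = 0`
  have h8 : Bk ≤ (((Finset.Icc 1 X).filter (fun k => g (3 * (3 * k^2 + 3 * k + 1)) = -1)).card : ℝ) + 1 := by
    have hsub : (Finset.range (3 * M^2 + 1)).filter (fun k => g (3 * (3 * k^2 + 3 * k + 1)) = -1) ⊆
        insert 0 ((Finset.Icc 1 X).filter (fun k => g (3 * (3 * k^2 + 3 * k + 1)) = -1)) := by
      intro k hk
      obtain ⟨a, b⟩ := Finset.mem_filter.1 hk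
      have := Finset.mem_range.1 a
      rcases Nat.eq_zero_or_pos k with h | h
      · rw [h]; exact Finset.mem_insert_self _ _
      · refine Finset.mem_insert_of_mem (Finset.mem_filter.2 ⟨Finset.mem_Icc.2 ⟨h, by omega⟩, b⟩)
    have := (Finset.card_le_card hsub).trans (Finset.card_insert_le _ _)
    rw [hBk]
    exact_mod_cast this
  linarith

end Pool.Agent.H41.Eis
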