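import Pool.Agent.H41.Eis.Window

/-!
Dirichlet approximation for directions, and the covering inequality.
-/

set_option autoImplicit false

namespace Pool.Agent.H41.Eis

open Finset Real MeasureTheory

/-- Dirichlet's theorem for directions. -/
lemma dirichlet_dir (θ : ℝ) (n : ℕ) (hn : 0 < n) :
    ∃ a : ℤ × ℤ, a ≠ 0 ∧ |Yc θ a| ≤ 1 / ((n:ℝ) + 1) ∧ nrm a ≤ 3 * (n:ℤ)^2 := by
  set ξ1 : ℝ := - sin θ with hξ1
  set ξ2 : ℝ := (√3 / 2) * cos θ - (1/2) * sin θ with hξ2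
  have hY : ∀ a : ℤ × ℤ, Yc θ a = a.1 * ξ1 + a.2 * ξ2 := by
    intro a
    rw [Yc, toC_re, toC_im, hξ1, hξ2]; ring
  have hn1 : (0:ℝ) < (n:ℝ) + 1 := by positivity
  have hbound : ∀ (ξ : ℝ) (j k : ℤ), |ξ| ≤ 1 → 0 < k → k ≤ n → |(k:ℝ) * ξ - j| ≤ 1 / ((n:ℝ)+1) →
      j^2 ≤ (n:ℤ)^2 := by
    intro ξ j k hξ hk0 hkn hj
    have h1 : |(j:ℝ)| ≤ n + 1/((n:ℝ)+1) := by
      have h2 : |(j:ℝ)| ≤ |(k:ℝ) * ξ| + |(k:ℝ) * ξ - j| := by
        have : (j:ℝ) = (k:ℝ) * ξ - ((k:ℝ) * ξ - j) := by ring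
        calc |(j:ℝ)| = |(k:ℝ) * ξ - ((k:ℝ) * ξ - j)| := by rw [← this]
          _ ≤ _ := abs_sub _ _
      have hk' : (0:ℝ) < k := by exact_mod_cast hk0
      have hkn' : (k:ℝ) ≤ n := by exact_mod_cast hkn
      have h3 : |(k:ℝ) * ξ| ≤ n := by
        rw [abs_mul, abs_of_pos hk']
        calc (k:ℝ) * |ξ| ≤ k * 1 := mul_le_mul_of_nonneg_left hξ hk'.le
          _ ≤ n := by rw [mul_one]; exact hkn'
      linarith
    have h4 : 1/((n:ℝ)+1) < 1 := by
      rw [div_lt_one hn1]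
      have : (0:ℝ) < n := by exact_mod_cast hn
      linarith
    have h5 : |(j:ℝ)| < n + 1 := by linarith
    have h6 : |j| < (n:ℤ) + 1 := by exact_mod_cast h5
    have h7 : |j| ≤ (n:ℤ) := by omega
    rw [← sq_abs]
    exact pow_le_pow_left₀ (abs_nonneg j) h7 2
  rcases le_or_gt |ξ2| |ξ1| with hle | hlt
  · have hξ1ne : ξ1 ≠ 0 := by
      intro h0
      rw [h0, abs_zero] at hle
      have h1 : ξ2 = 0 := abs_eq_zero.1 (le_antisymm hle (abs_nonneg _))
      have hs : sin θ = 0 := by rw [hξ1] at h0; linarith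
      rw [hξ2, hs] at h1
      have hc : cos θ = 0 := by
        have h3 : (0:ℝ) < √3 / 2 := by positivity
        have : √3 / 2 * cos θ = 0 := by linarith
        rcases mul_eq_zero.1 this with h | h
        · linarith
        · exact h
      have := sin_sq_add_cos_sq θ
      rw [hs, hc] at this
      norm_num at this
    obtain ⟨j, k, hk0, hkn, hjk⟩ := Real.exists_int_int_abs_mul_sub_le (ξ2 / ξ1) hn
    have hξabs : |ξ2 / ξ1| ≤ 1 := by
      rw [abs_div, div_le_one (abs_pos.2 hξ1ne)]; exact hle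
    have hj := hbound _ j k hξabs hk0 hkn hjk
    refine ⟨(-j, k), ?_, ?_, ?_⟩
    · intro h0
      have := congrArg Prod.snd h0
      simp at this; omega
    · rw [hY]
      push_cast
      have h1 : -(j:ℝ) * ξ1 + k * ξ2 = ξ1 * (k * (ξ2/ξ1) - j) := by field_simp; ring
      rw [h1, abs_mul]
      have h2 : |ξ1| ≤ 1 := by rw [hξ1, abs_neg]; exact abs_sin_le_one θ
      calc |ξ1| * |(k:ℝ) * (ξ2/ξ1) - j| ≤ 1 * (1 / ((n:ℝ)+1)) :=
            mul_le_mul h2 hjk (abs_nonneg _) zero_le_one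
        _ = _ := one_mul _
    · simp only [nrm]
      have hk2 : k^2 ≤ (n:ℤ)^2 := pow_le_pow_left₀ hk0.le hkn 2
      nlinarith [sq_nonneg (j + k), sq_nonneg (j - k)]
  · have hξ2ne : ξ2 ≠ 0 := by
      intro h0
      rw [h0, abs_zero] at hlt
      exact absurd hlt (not_lt.2 (abs_nonneg _))
    obtain ⟨j, k, hk0, hkn, hjk⟩ := Real.exists_int_int_abs_mul_sub_le (ξ1 / ξ2) hn
    have hξabs : |ξ1 / ξ2| ≤ 1 := by
      rw [abs_div, div_le_one (abs_pos.2 hξ2ne)]; exact hlt.le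
    have hj := hbound _ j k hξabs hk0 hkn hjk
    refine ⟨(k, -j), ?_, ?_, ?_⟩
    · intro h0
      have := congrArg Prod.fst h0
      simp at this; omega
    · rw [hY]
      push_cast
      have h1 : (k:ℝ) * ξ1 + -(j:ℝ) * ξ2 = ξ2 * (k * (ξ1/ξ2) - j) := by field_simp; ring
      rw [h1, abs_mul]
      have h2 : |ξ2| ≤ 1 := by
        have h3 : ξ2 = sin (π/3 - θ) := by
          rw [hξ2, sin_sub, sin_pi_div_three, cos_pi_div_three]
        rw [h3]; exact abs_sin_le_one _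
      calc |ξ2| * |(k:ℝ) * (ξ1/ξ2) - j| ≤ 1 * (1 / ((n:ℝ)+1)) :=
            mul_le_mul h2 hjk (abs_nonneg _) zero_le_one
        _ = _ := one_mul _
    · simp only [nrm]
      have hk2 : k^2 ≤ (n:ℤ)^2 := pow_le_pow_left₀ hk0.le hkn 2
      nlinarith [sq_nonneg (j + k), sq_nonneg (j - k)]

/-- The set of `θ ∈ [0,π]` with `|sin (θ - c)| ≤ δ` has measure at most `3πδ`. -/
lemma volume_sin_le (c δ : ℝ) (hδ : 0 ≤ δ) :
    volume {θ ∈ Set.Icc (0:ℝ) π | |sin (θ - c)| ≤ δ} ≤ ENNReal.ofReal (3 * (π * δ)) := by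
  -- reduce `c` modulo `π`
  obtain ⟨l, c', hc', hc0, hcπ⟩ : ∃ (l : ℤ) (c' : ℝ), c = c' + l * π ∧ 0 ≤ c' ∧ c' < π := by
    refine ⟨⌊c / π⌋, c - ⌊c / π⌋ * π, by ring, ?_, ?_⟩
    · have := Int.floor_le (c / π)
      rw [le_div_iff₀ pi_pos] at this
      linarith
    · have := Int.lt_floor_add_one (c / π)
      rw [div_lt_iff₀ pi_pos] at this
      linarith
  have hsub : {θ ∈ Set.Icc (0:ℝ) π | |sin (θ - c)| ≤ δ} ⊆
      Set.Icc (c' - π * δ / 2) (c' + π * δ / 2) ∪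
      (Set.Icc (c' - π - π * δ / 2) (c' - π + π * δ / 2) ∪
       Set.Icc (c' + π - π * δ / 2) (c' + π + π * δ / 2)) := by
    rintro θ ⟨⟨h0, h1⟩, h2⟩
    have h3 : |sin (θ - c')| ≤ δ := by
      have h4 : θ - c = (θ - c') - l * π := by rw [hc']; ring
      rw [h4, sin_sub_int_mul_pi, abs_mul, abs_zpow] at h2
      simpa using h2
    have key : ∀ x : ℝ, |x| ≤ π / 2 → |sin x| ≤ δ → |x| ≤ π * δ / 2 := by
      intro x hx hs
      have := mul_abs_le_abs_sin hx
      have h5 : 2 / π * |x| ≤ δ := this.trans hs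
      rw [div_mul_eq_mul_div, div_le_iff₀ pi_pos] at h5
      linarith
    rcases le_or_gt |θ - c'| (π/2) with h | h
    · left
      have := abs_le.1 (key _ h h3)
      exact ⟨by linarith [this.1], by linarith [this.2]⟩
    · right
      rcases lt_abs.1 h with h5 | h5
      · right
        have h6 : |θ - c' - π| ≤ π/2 := by
          rw [abs_le]; constructor <;> linarith
        have h7 : |sin (θ - c' - π)| ≤ δ := by rw [sin_sub_pi, abs_neg]; exact h3
        have := abs_le.1 (key _ h6 h7)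
        exact ⟨by linarith [this.1], by linarith [this.2]⟩
      · left
        have h6 : |θ - c' + π| ≤ π/2 := by
          rw [abs_le]; constructor <;> linarith
        have h7 : |sin (θ - c' + π)| ≤ δ := by rw [sin_add_pi, abs_neg]; exact h3
        have := abs_le.1 (key _ h6 h7)
        exact ⟨by linarith [this.1], by linarith [this.2]⟩
  refine (measure_mono hsub).trans ?_
  refine (measure_union_le _ _).trans ?_
  refine (add_le_add (le_refl _) (measure_union_le _ _)).trans ?_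
  rw [Real.volume_Icc, Real.volume_Icc, Real.volume_Icc]
  have hp : 0 ≤ π * δ := mul_nonneg pi_pos.le hδ
  rw [← ENNReal.ofReal_add (by linarith) (by linarith), ← ENNReal.ofReal_add (by linarith) (by linarith)]
  apply ENNReal.ofReal_le_ofReal
  linarith

/-- Covering inequality. -/
lemma cover {ι : Type*} (s : Finset ι) (c δ : ι → ℝ) (hδ : ∀ i ∈ s, 0 ≤ δ i)
    (h : ∀ θ ∈ Set.Icc (0:ℝ) π, ∃ i ∈ s, |sin (θ - c i)| ≤ δ i) :
    1 ≤ 3 * ∑ i ∈ s, δ i := by
  have hsub : Set.Icc (0:ℝ) π ⊆ ⋃ i ∈ s, {θ ∈ Set.Icc (0:ℝ) π | |sin (θ - c i)| ≤ δ i} := by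
    intro θ hθ
    obtain ⟨i, hi, h1⟩ := h θ hθ
    exact Set.mem_biUnion hi ⟨hθ, h1⟩
  have h1 : volume (Set.Icc (0:ℝ) π) ≤ ∑ i ∈ s, ENNReal.ofReal (3 * (π * δ i)) :=
    (measure_mono hsub).trans ((measure_biUnion_finset_le s _).trans
      (Finset.sum_le_sum fun i hi => volume_sin_le (c i) (δ i) (hδ i hi)))
  rw [Real.volume_Icc, sub_zero, ← ENNReal.ofReal_sum_of_nonneg] at h1
  · have h2 : π ≤ ∑ i ∈ s, 3 * (π * δ i) := by
      rw [ENNReal.ofReal_le_ofReal_iff] at h1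
      · exact h1
      · exact Finset.sum_nonneg fun i hi => by
          have := hδ i hi
          have := pi_pos
          positivity
    have h3 : ∑ i ∈ s, 3 * (π * δ i) = π * (3 * ∑ i ∈ s, δ i) := by
      rw [Finset.mul_sum, Finset.mul_sum]
      exact Finset.sum_congr rfl fun i _ => by ring
    rw [h3] at h2
    have h4 : π * 1 ≤ π * (3 * ∑ i ∈ s, δ i) := by rw [mul_one]; exact h2
    exact le_of_mul_le_mul_left h4 pi_pos
  · intro i hi
    have := hδ i hi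
    have := pi_pos
    positivity

end Pool.Agent.H41.Eis
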