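import Pool.Agent.H41.Eis.Farey

/-!
Mixed unimodular pairs correspond to the values `3 (3k²+3k+1)`; bound for the number of vectors
dividing a given `x - ρ`.
-/

set_option autoImplicit false

namespace Pool.Agent.H41.Eis

open Finset

/-- For a mixed unimodular pair the product of the norms is `3 (3k²+3k+1)`. -/
lemma mixed_value (p p' : ℤ × ℤ) (hdet : edet p p' = 1)
    (hmix : (TypeB p ∧ ¬ TypeB p') ∨ (¬ TypeB p ∧ TypeB p')) :
    ∃ k : ℕ, nrm p * nrm p' = 3 * (3 * (k:ℤ)^2 + 3 * k + 1) ∧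
      (emul p (econj p') = (-(3 * (k:ℤ) + 1), -1) ∨ emul p (econj p') = (3 * (k:ℤ) + 2, -1)) := by
  set x : ℤ := p.1*p'.1 + p.1*p'.2 + p.2*p'.2 with hx
  have hE : emul p (econj p') = (x, -1) := by rw [nrm_mul_nrm, hdet]
  have hN : nrm p * nrm p' = x^2 - x + 1 := by
    have h1 := nrm_emul p (econj p')
    rw [hE, nrm_econj] at h1
    rw [← h1]; simp only [nrm]; ring
  have h3 : (3:ℤ) ∣ nrm p * nrm p' := by
    have hB : ∀ z : ℤ × ℤ, TypeB z → (3:ℤ) ∣ nrm z := by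
      rintro z ⟨u, hu⟩
      refine ⟨3 * u^2 + 3 * u * z.2 + z.2^2, ?_⟩
      have : z.1 = z.2 + 3 * u := by linarith
      simp only [nrm]; rw [this]; ring
    rcases hmix with ⟨h, _⟩ | ⟨_, h⟩
    · exact Dvd.dvd.mul_right (hB p h) _
    · exact Dvd.dvd.mul_left (hB p' h) _
  rw [hN] at h3
  have hx3 : x % 3 = 2 := by
    have h4 : (x^2 - x + 1) % 3 = 0 := Int.emod_eq_zero_of_dvd h3
    have h5 : x % 3 = 0 ∨ x % 3 = 1 ∨ x % 3 = 2 := by omega
    rcases h5 with h | h | h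
    · obtain ⟨t, ht⟩ : ∃ t, x = 3 * t := ⟨x / 3, by omega⟩
      rw [ht] at h4
      have : (3*t)^2 - 3*t + 1 = 1 + 3 * (3*t^2 - t) := by ring
      omega
    · obtain ⟨t, ht⟩ : ∃ t, x = 3 * t + 1 := ⟨x / 3, by omega⟩
      rw [ht] at h4
      have : ((3*t+1)^2 - (3*t+1) + 1) = 1 + 3 * (3*t^2 + t) := by ring
      omega
    · exact h
  rcases le_or_gt 0 x with h0 | h0
  · refine ⟨(x / 3).toNat, ?_, Or.inr ?_⟩
    · have hk : (((x / 3).toNat : ℕ) : ℤ) = x / 3 := Int.toNat_of_nonneg (by omega)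
      have hx' : x = 3 * (x / 3) + 2 := by omega
      rw [hN, hk]
      generalize x / 3 = t at hx'
      rw [hx']; ring
    · have hk : (((x / 3).toNat : ℕ) : ℤ) = x / 3 := Int.toNat_of_nonneg (by omega)
      rw [hE, hk]
      congr 1; omega
  · refine ⟨((-x) / 3).toNat, ?_, Or.inl ?_⟩
    · have hk : ((((-x) / 3).toNat : ℕ) : ℤ) = (-x) / 3 := Int.toNat_of_nonneg (by omega)
      have hx' : x = -(3 * ((-x) / 3) + 1) := by omega
      rw [hN, hk]
      generalize (-x) / 3 = t at hx'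
      rw [hx']; ring
    · have hk : ((((-x) / 3).toNat : ℕ) : ℤ) = (-x) / 3 := Int.toNat_of_nonneg (by omega)
      rw [hE, hk]
      congr 1; omega

/-- Units. -/
lemma unit_mem {u : ℤ × ℤ} (hu : nrm u = 1) :
    u ∈ ({(1,0), (-1,0), (0,1), (0,-1), (1,-1), (-1,1)} : Finset (ℤ × ℤ)) := by
  have h1 := sq_le_nrm_fst u
  have h2 := sq_le_nrm_snd u
  rw [hu] at h1 h2
  obtain ⟨a, b⟩ := u
  simp only at h1 h2
  have ha : -1 ≤ a ∧ a ≤ 1 := by constructor <;> nlinarith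
  have hb : -1 ≤ b ∧ b ≤ 1 := by constructor <;> nlinarith
  simp only [nrm] at hu
  obtain ⟨ha1, ha2⟩ := ha
  obtain ⟨hb1, hb2⟩ := hb
  interval_cases a <;> interval_cases b <;> simp_all

/-- Two divisors of `x - ρ` of the same norm are associated. -/
lemma assoc_of_nrm_eq (x : ℤ) (p w q v : ℤ × ℤ) (hp : emul p w = (x, -1)) (hq : emul q v = (x, -1))
    (hn : nrm p = nrm q) (hpos : 0 < nrm p) : ∃ u : ℤ × ℤ, nrm u = 1 ∧ q = emul p u := by
  obtain ⟨p1, p2⟩ := p
  obtain ⟨w1, w2⟩ := w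
  obtain ⟨q1, q2⟩ := q
  obtain ⟨v1, v2⟩ := v
  simp only [emul, Prod.mk.injEq] at hp hq
  obtain ⟨hp1, hp2⟩ := hp
  obtain ⟨hq1, hq2⟩ := hq
  simp only [nrm] at hn hpos
  -- `q1 + q2 x = n s`, `s = - v2`
  have hs : q1 + q2 * x = (q1^2 + q1*q2 + q2^2) * (-v2) := by
    linear_combination (-q2) * hq1 + q1 * hq2
  refine ⟨(-q2 * w1 + (-v2) * (p1 + p2), -q2 * w2 + (-v2) * (-p2)), ?_, ?_⟩
  · -- norm one
    have hq' : ((q1, q2) : ℤ × ℤ) = emul (p1, p2)
        (-q2 * w1 + (-v2) * (p1 + p2), -q2 * w2 + (-v2) * (-p2)) := by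
      simp only [emul, Prod.mk.injEq]
      constructor
      · rw [← hn] at hs
        linear_combination hs + q2 * hp1
      · linear_combination q2 * hp2
    have h1 := nrm_emul (p1, p2) (-q2 * w1 + (-v2) * (p1 + p2), -q2 * w2 + (-v2) * (-p2))
    rw [← hq'] at h1
    have h2 : nrm (q1, q2) = nrm (p1, p2) := by simp only [nrm]; exact hn.symm
    rw [h2] at h1
    have h3 : nrm (p1, p2) * 1 = nrm (p1, p2) *
        nrm (-q2 * w1 + (-v2) * (p1 + p2), -q2 * w2 + (-v2) * (-p2)) := by rw [mul_one]; exact h1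
    have h4 : nrm (p1, p2) ≠ 0 := by simp only [nrm]; omega
    exact (mul_left_cancel₀ h4 h3).symm
  · simp only [emul, Prod.mk.injEq]
    constructor
    · rw [← hn] at hs
      linear_combination hs + q2 * hp1
    · linear_combination q2 * hp2

/-- The number of divisors of `x - ρ` is at most `6 d(x² - x + 1)`. -/
lemma card_divisors_le (x : ℤ) (P : Finset (ℤ × ℤ)) (hP : ∀ p ∈ P, ∃ w, emul p w = (x, -1)) :
    P.card ≤ 6 * (x^2 - x + 1).natAbs.divisors.card := by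
  have hNpos : 0 < x^2 - x + 1 := by nlinarith [sq_nonneg (2*x - 1)]
  have hdvd : ∀ p ∈ P, nrm p ∣ x^2 - x + 1 := by
    intro p hp
    obtain ⟨w, hw⟩ := hP p hp
    have h1 := nrm_emul p w
    rw [hw] at h1
    refine ⟨nrm w, ?_⟩
    rw [← h1]; simp only [nrm]; ring
  have hpos : ∀ p ∈ P, 0 < nrm p := by
    intro p hp
    rcases (nrm_nonneg p).lt_or_eq with h | h
    · exact h
    · have := hdvd p hp
      rw [← h] at this
      have := Int.zero_dvd.1 this
      omega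
  classical
  have hcard := Finset.card_le_mul_card_image (s := P) (f := fun p => (nrm p).natAbs) 6 (by
    intro a ha
    obtain ⟨p0, hp0, hp0a⟩ := Finset.mem_image.1 ha
    obtain ⟨w0, hw0⟩ := hP p0 hp0
    have hsub : P.filter (fun p => (nrm p).natAbs = a) ⊆
        (({(1,0), (-1,0), (0,1), (0,-1), (1,-1), (-1,1)} : Finset (ℤ × ℤ))).image (emul p0) := by
      intro q hq
      obtain ⟨hq1, hq2⟩ := Finset.mem_filter.1 hq
      obtain ⟨v, hv⟩ := hP q hq1
      have hn : nrm p0 = nrm q := by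
        have h1 := hpos p0 hp0
        have h2 := hpos q hq1
        omega
      obtain ⟨u, hu1, hu2⟩ := assoc_of_nrm_eq x p0 w0 q v hw0 hv hn (hpos p0 hp0)
      exact Finset.mem_image.2 ⟨u, unit_mem hu1, hu2.symm⟩
    exact (Finset.card_le_card hsub).trans (Finset.card_image_le.trans (Finset.card_le_six)))
  refine hcard.trans (Nat.mul_le_mul_left 6 (Finset.card_le_card ?_))
  intro a ha
  obtain ⟨p, hp, rfl⟩ := Finset.mem_image.1 ha
  rw [Nat.mem_divisors]
  exact ⟨Int.natAbs_dvd_natAbs.2 (hdvd p hp), by omega⟩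

end Pool.Agent.H41.Eis
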