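import Pool.Agent.H41.Eis.Basic

/-!
The Farey path argument: between two directions with different values of a scale invariant
function there is a unimodular pair with different values, and one can even take it to be of
mixed type modulo `1 + ρ`.
-/

set_option autoImplicit false

namespace Pool.Agent.H41.Eis

/-- Closure under nonzero integer points of triangles `0, a, b`. -/
def TriClosed (S : Set (ℤ × ℤ)) : Prop :=
  ∀ a ∈ S, ∀ b ∈ S, ∀ D x y : ℤ, 0 < D → 0 ≤ x → 0 ≤ y → x + y ≤ D →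
    ∀ c : ℤ × ℤ, c ≠ 0 → D * c.1 = x * a.1 + y * b.1 → D * c.2 = x * a.2 + y * b.2 → c ∈ S

lemma farey_prim (S : Set (ℤ × ℤ)) (hS : TriClosed S) (h : ℤ × ℤ → ℤ) :
    ∀ n : ℕ, ∀ a ∈ S, ∀ b ∈ S, IsCoprime a.1 a.2 → IsCoprime b.1 b.2 →
      edet a b = n → 1 ≤ n → h a ≠ h b →
      ∃ p ∈ S, ∃ p' ∈ S, edet p p' = 1 ∧ h p ≠ h p' := by
  intro n
  induction n using Nat.strong_induction_on with
  | _ n ih =>
    intro a ha b hb hca hcb hdet hn hab
    rcases Nat.lt_or_ge 1 n with hn1 | hn1
    · obtain ⟨u, v, huv⟩ := hca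
      set e : ℤ × ℤ := (-v, u) with he
      have hae : edet a e = 1 := by
        simp only [edet, he]; linarith
      set D : ℤ := (n : ℤ) with hD
      have hD2 : 2 ≤ D := by rw [hD]; exact_mod_cast hn1
      set α : ℤ := edet b e with hα
      have hb1 : b.1 = α * a.1 + D * e.1 := by
        have h1 : edet a e * b.1 = edet b e * a.1 + edet a b * e.1 := by
          simp only [edet]; ring
        rw [hae, hdet, one_mul] at h1
        exact h1
      have hb2 : b.2 = α * a.2 + D * e.2 := by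
        have h1 : edet a e * b.2 = edet b e * a.2 + edet a b * e.2 := by
          simp only [edet]; ring
        rw [hae, hdet, one_mul] at h1
        exact h1
      set x : ℤ := (-α) % D with hx
      set t : ℤ := -((-α) / D) with ht
      have hx0 : 0 ≤ x := Int.emod_nonneg _ (by omega)
      have hxD : x < D := Int.emod_lt_of_pos _ (by omega)
      have hxt : x = t * D - α := by
        have := Int.emod_add_mul_ediv (-α) D
        rw [hx, ht]
        linarith
      have hxne : x ≠ 0 := by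
        intro h0
        have h1 : α = t * D := by linarith
        obtain ⟨r, s, hrs⟩ := hcb
        rw [hb1, hb2, h1] at hrs
        have h2 : D ∣ 1 := ⟨r * (t * a.1 + e.1) + s * (t * a.2 + e.2), by rw [← hrs]; ring⟩
        have h3 := Int.le_of_dvd one_pos h2
        omega
      set c : ℤ × ℤ := (e.1 + t * a.1, e.2 + t * a.2) with hc
      have hDc1 : D * c.1 = x * a.1 + 1 * b.1 := by
        simp only [hc]; rw [hxt, hb1]; ring
      have hDc2 : D * c.2 = x * a.2 + 1 * b.2 := by
        simp only [hc]; rw [hxt, hb2]; ring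
      have hac : edet a c = 1 := by
        have : edet a c = edet a e := by simp only [edet, hc]; ring
        rw [this, hae]
      have hc0 : c ≠ 0 := by
        intro h0
        rw [h0] at hac
        simp [edet] at hac
      have hcS : c ∈ S := hS a ha b hb D x 1 (by omega) hx0 zero_le_one (by omega) c hc0 hDc1 hDc2
      by_cases hh : h a = h c
      · have hcb' : edet c b = x := by
          have h1 : D * edet c b = D * x := by
            have : D * edet c b = (D * c.1) * b.2 - (D * c.2) * b.1 := by simp only [edet]; ring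
            rw [this, hDc1, hDc2]
            have h2 : (x * a.1 + 1 * b.1) * b.2 - (x * a.2 + 1 * b.2) * b.1 = x * edet a b := by
              simp only [edet]; ring
            rw [h2, hdet]; ring
          exact mul_left_cancel₀ (by omega) h1
        have hcc : IsCoprime c.1 c.2 := by
          refine ⟨-a.2, a.1, ?_⟩
          simp only [edet] at hac
          linarith
        have hxn : x = ((x.toNat : ℕ) : ℤ) := (Int.toNat_of_nonneg hx0).symm
        refine ih x.toNat (by omega) c hcS b hb hcc hcb (by rw [hcb']; exact hxn) (by omega) ?_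
        rw [← hh]; exact hab
      · exact ⟨a, ha, c, hcS, hac, hh⟩
    · have : n = 1 := by omega
      subst this
      exact ⟨a, ha, b, hb, by simpa using hdet, hab⟩

/-- **Farey path lemma.** -/
lemma farey_path (S : Set (ℤ × ℤ)) (hS : TriClosed S) (h : ℤ × ℤ → ℤ)
    (hscale : ∀ (n : ℤ) (z : ℤ × ℤ), n ≠ 0 → z ≠ 0 → h (n * z.1, n * z.2) = h z)
    (a b : ℤ × ℤ) (ha : a ∈ S) (hb : b ∈ S) (ha0 : a ≠ 0) (hb0 : b ≠ 0) (hab : h a ≠ h b) :
    ∃ p ∈ S, ∃ p' ∈ S, edet p p' = 1 ∧ h p ≠ h p' := by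
  -- primitive parts
  have hprim : ∀ z ∈ S, z ≠ 0 → ∃ w ∈ S, IsCoprime w.1 w.2 ∧ h w = h z ∧ w ≠ 0 := by
    intro z hz hz0
    have hg : 0 < Int.gcd z.1 z.2 := by
      rw [Nat.pos_iff_ne_zero, Ne, Int.gcd_eq_zero_iff]
      intro h0
      exact hz0 (Prod.ext h0.1 h0.2)
    set g : ℤ := (Int.gcd z.1 z.2 : ℤ) with hgdef
    have hg0 : 0 < g := by rw [hgdef]; exact_mod_cast hg
    obtain ⟨u, hu⟩ : g ∣ z.1 := Int.gcd_dvd_left _ _
    obtain ⟨v, hv⟩ : g ∣ z.2 := Int.gcd_dvd_right _ _
    have hw0 : ((u, v) : ℤ × ℤ) ≠ 0 := by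
      intro h0
      have h1 : u = 0 := congrArg Prod.fst h0
      have h2 : v = 0 := congrArg Prod.snd h0
      apply hz0
      apply Prod.ext
      · rw [hu, h1]; simp
      · rw [hv, h2]; simp
    refine ⟨(u, v), ?_, ?_, ?_, hw0⟩
    · refine hS z hz z hz g 1 0 hg0 zero_le_one le_rfl (by omega) (u, v) hw0 ?_ ?_
      · simp only; linarith
      · simp only; linarith
    · rw [Int.isCoprime_iff_gcd_eq_one]
      have h1 : Int.gcd z.1 z.2 = g.natAbs * Int.gcd u v := by
        rw [hu, hv, Int.gcd_mul_left]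
      have h2 : g.natAbs = Int.gcd z.1 z.2 := by rw [hgdef]; simp
      rw [h2] at h1
      have h3 : Int.gcd z.1 z.2 * 1 = Int.gcd z.1 z.2 * Int.gcd u v := by rw [mul_one]; exact h1
      exact (Nat.eq_of_mul_eq_mul_left hg h3).symm
    · have := hscale g (u, v) hg0.ne' hw0
      simp only at this
      rw [← hu, ← hv] at this
      exact this.symm
  obtain ⟨a', ha', hca, hha, ha0'⟩ := hprim a ha ha0
  obtain ⟨b', hb', hcb, hhb, hb0'⟩ := hprim b hb hb0
  have hab' : h a' ≠ h b' := by rw [hha, hhb]; exact hab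
  rcases lt_trichotomy (edet a' b') 0 with hd | hd | hd
  · have h1 : edet b' a' = -edet a' b' := by simp only [edet]; ring
    obtain ⟨p, hp, p', hp', h2, h3⟩ := farey_prim S hS h (edet b' a').toNat b' hb' a' ha' hcb hca
      (Int.toNat_of_nonneg (by omega)).symm (by omega) hab'.symm
    exact ⟨p, hp, p', hp', h2, h3⟩
  · -- parallel primitive vectors
    exfalso
    apply hab'
    -- `b' = r a'` with `r` an integer
    obtain ⟨u, v, huv⟩ := hca
    set r : ℤ := u * b'.1 + v * b'.2 with hr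
    have hb1 : b'.1 = r * a'.1 := by
      have : b'.1 = (u * a'.1 + v * a'.2) * b'.1 := by rw [huv, one_mul]
      simp only [edet] at hd
      rw [this, hr]
      linear_combination v * (-1 : ℤ) * hd
    have hb2 : b'.2 = r * a'.2 := by
      have : b'.2 = (u * a'.1 + v * a'.2) * b'.2 := by rw [huv, one_mul]
      simp only [edet] at hd
      rw [this, hr]
      linear_combination u * hd
    have hr0 : r ≠ 0 := by
      intro h0
      apply hb0'
      apply Prod.ext
      · rw [hb1, h0]; simp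
      · rw [hb2, h0]; simp
    have := hscale r a' hr0 ha0'
    rw [← hb1, ← hb2] at this
    exact this.symm
  · obtain ⟨p, hp, p', hp', h2, h3⟩ := farey_prim S hS h (edet a' b').toNat a' ha' b' hb' hca hcb
      (Int.toNat_of_nonneg (by omega)).symm (by omega) hab'
    exact ⟨p, hp, p', hp', h2, h3⟩

/-- Type `B` vectors: those divisible by `1 + ρ`. -/
def TypeB (z : ℤ × ℤ) : Prop := (3:ℤ) ∣ z.1 - z.2

/-- **Mixed pair lemma.** -/
lemma mixed_pair (S T : Set (ℤ × ℤ)) (h : ℤ × ℤ → ℤ)
    (hST : S ⊆ T)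
    (hT1 : ∀ p ∈ S, ∀ q ∈ S, (p.1 + q.1, p.2 + q.2) ∈ T)
    (hT2 : ∀ p ∈ S, ∀ q ∈ S, (2 * p.1 + q.1, 2 * p.2 + q.2) ∈ T)
    (p p' : ℤ × ℤ) (hp : p ∈ S) (hp' : p' ∈ S) (hdet : edet p p' = 1) (hh : h p ≠ h p') :
    ∃ q ∈ T, ∃ q' ∈ T, edet q q' = 1 ∧ h q ≠ h q' ∧
      ((TypeB q ∧ ¬ TypeB q') ∨ (¬ TypeB q ∧ TypeB q')) := by
  have hnot : ∀ q q' : ℤ × ℤ, edet q q' = 1 → TypeB q → ¬ TypeB q' := by
    rintro q q' h1 ⟨u, hu⟩ ⟨v, hv⟩
    simp only [edet] at h1
    have h2 : q.1 = q.2 + 3 * u := by linarith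
    have h3 : q'.1 = q'.2 + 3 * v := by linarith
    rw [h2, h3] at h1
    have : (3:ℤ) ∣ 1 := ⟨u * q'.2 - q.2 * v, by rw [← h1]; ring⟩
    norm_num at this
  by_cases hB : TypeB p
  · exact ⟨p, hST hp, p', hST hp', hdet, hh, Or.inl ⟨hB, hnot p p' hdet hB⟩⟩
  by_cases hB' : TypeB p'
  · exact ⟨p, hST hp, p', hST hp', hdet, hh, Or.inr ⟨hB, hB'⟩⟩
  -- both of type A
  set s : ℤ := p.1 - p.2 with hs
  set s' : ℤ := p'.1 - p'.2 with hs'
  have hs3 : s % 3 = 1 ∨ s % 3 = 2 := by
    have : ¬ (3:ℤ) ∣ s := hB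
    omega
  have hs3' : s' % 3 = 1 ∨ s' % 3 = 2 := by
    have : ¬ (3:ℤ) ∣ s' := hB'
    omega
  by_cases hsum : (3:ℤ) ∣ s + s'
  · -- `c = p + p'`
    set c : ℤ × ℤ := (p.1 + p'.1, p.2 + p'.2) with hc
    have hcT : c ∈ T := hT1 p hp p' hp'
    have hcB : TypeB c := by
      unfold TypeB
      have : c.1 - c.2 = s + s' := by simp only [hc, hs, hs']; ring
      rw [this]; exact hsum
    have hd1 : edet p c = 1 := by
      have : edet p c = edet p p' := by simp only [edet, hc]; ring
      rw [this, hdet]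
    have hd2 : edet c p' = 1 := by
      have : edet c p' = edet p p' := by simp only [edet, hc]; ring
      rw [this, hdet]
    by_cases h1 : h p = h c
    · refine ⟨c, hcT, p', hST hp', hd2, ?_, Or.inl ⟨hcB, hB'⟩⟩
      rw [← h1]; exact hh
    · exact ⟨p, hST hp, c, hcT, hd1, h1, Or.inr ⟨hB, hcB⟩⟩
  · have heq : s % 3 = s' % 3 := by omega
    set c1 : ℤ × ℤ := (2 * p.1 + p'.1, 2 * p.2 + p'.2) with hc1
    set c2 : ℤ × ℤ := (p.1 + p'.1, p.2 + p'.2) with hc2
    set c3 : ℤ × ℤ := (2 * p'.1 + p.1, 2 * p'.2 + p.2) with hc3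
    have hc1T : c1 ∈ T := hT2 p hp p' hp'
    have hc2T : c2 ∈ T := hT1 p hp p' hp'
    have hc3T : c3 ∈ T := hT2 p' hp' p hp
    have hc1B : TypeB c1 := by
      unfold TypeB
      have : c1.1 - c1.2 = 2 * s + s' := by simp only [hc1, hs, hs']; ring
      rw [this]; omega
    have hc2A : ¬ TypeB c2 := by
      unfold TypeB
      have : c2.1 - c2.2 = s + s' := by simp only [hc2, hs, hs']; ring
      rw [this]; exact hsum
    have hc3B : TypeB c3 := by
      unfold TypeB
      have : c3.1 - c3.2 = 2 * s' + s := by simp only [hc3, hs, hs']; ring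
      rw [this]; omega
    have hd1 : edet p c1 = 1 := by
      have : edet p c1 = edet p p' := by simp only [edet, hc1]; ring
      rw [this, hdet]
    have hd2 : edet c1 c2 = 1 := by
      have : edet c1 c2 = edet p p' := by simp only [edet, hc1, hc2]; ring
      rw [this, hdet]
    have hd3 : edet c2 c3 = 1 := by
      have : edet c2 c3 = edet p p' := by simp only [edet, hc2, hc3]; ring
      rw [this, hdet]
    have hd4 : edet c3 p' = 1 := by
      have : edet c3 p' = edet p p' := by simp only [edet, hc3]; ring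
      rw [this, hdet]
    by_cases h1 : h p = h c1
    · by_cases h2 : h c1 = h c2
      · by_cases h3 : h c2 = h c3
        · refine ⟨c3, hc3T, p', hST hp', hd4, ?_, Or.inl ⟨hc3B, hB'⟩⟩
          rw [← h3, ← h2, ← h1]; exact hh
        · exact ⟨c2, hc2T, c3, hc3T, hd3, h3, Or.inr ⟨hc2A, hc3B⟩⟩
      · exact ⟨c1, hc1T, c2, hc2T, hd2, h2, Or.inl ⟨hc1B, hc2A⟩⟩
    · exact ⟨p, hST hp, c1, hc1T, hd1, h1, Or.inr ⟨hB, hc1B⟩⟩

end Pool.Agent.H41.Eis
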