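import Pool.Agent.H41.Eis.Small

/-!
Asymptotic lower bound for the number of mixed bad pairs.
-/

set_option autoImplicit false

namespace Pool.Agent.H41.Eis

open Finset Real

theorem pairs_many (h : ℤ × ℤ → ℤ) (hc : IsChar h) (z0 : ℤ × ℤ) (hz0 : z0 ≠ 0) (hh0 : h z0 = -1)
    (ε : ℝ) (hε : 0 < ε) (hε1 : ε ≤ 1) :
    ∃ c : ℝ, 0 < c ∧ ∃ M0 : ℕ, 1 ≤ M0 ∧ ∀ M : ℕ, M0 ≤ M → ∀ P : Finset (ℤ × ℤ),
      (∀ q q' : ℤ × ℤ, q ≠ 0 → q' ≠ 0 → edet q q' = 1 → h q ≠ h q' →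
        ((TypeB q ∧ ¬ TypeB q') ∨ (¬ TypeB q ∧ TypeB q')) → ‖toC q‖ ≤ 3 * M → ‖toC q'‖ ≤ 3 * M →
        q ∈ P) →
      c * (M:ℝ)^(2 - ε) ≤ P.card := by
  set e : ℝ := ε / 8 with he
  have he0 : 0 < e := by rw [he]; positivity
  set r : ℕ := ⌈3 / e⌉₊ with hr
  have hr3 : 3 ≤ e * ((r:ℝ) + 1) := by
    have h1 : 3 / e ≤ r := Nat.le_ceil _
    rw [div_le_iff₀ he0] at h1
    nlinarith
  obtain ⟨C, hC, hsmall⟩ := small_list r
  set K : ℝ := 8 * (288 * (C + 2) * 36) with hK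
  have hK0 : 0 < K := by rw [hK]; positivity
  -- largeness
  have htend : Filter.Tendsto (fun M : ℕ => (M:ℝ)^e) Filter.atTop Filter.atTop :=
    (tendsto_rpow_atTop he0).comp tendsto_natCast_atTop_atTop
  have hev := ((htend.eventually_ge_atTop (2 * r)).and
    (htend.eventually_ge_atTop ‖toC z0‖)).and
    ((tendsto_natCast_atTop_atTop (R := ℝ)).eventually_ge_atTop (K + C + 1))
  obtain ⟨M1, hM1⟩ := Filter.eventually_atTop.1 hev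
  refine ⟨1 / (62208 * (C + 2)^2 * 16), by positivity, max M1 1, le_max_right _ _,
    fun M hM P hP => ?_⟩
  obtain ⟨⟨h2r, hz0M⟩, hMK⟩ := hM1 M ((le_max_left _ _).trans hM)
  have hM1' : (1:ℝ) ≤ M := by exact_mod_cast (le_max_right _ _).trans hM
  have hM0 : (0:ℝ) < M := by linarith
  set Q : ℕ := ⌈(M:ℝ)^e⌉₊ with hQ
  have hMe1 : 1 ≤ (M:ℝ)^e := one_le_rpow hM1' he0.le
  have hQlow : (M:ℝ)^e ≤ Q := Nat.le_ceil _
  have hQup : (Q:ℝ) ≤ 2 * (M:ℝ)^e := by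
    have := (Nat.ceil_lt_add_one (by positivity : (0:ℝ) ≤ (M:ℝ)^e)).le
    linarith
  have hQ1R : (1:ℝ) ≤ Q := hMe1.trans hQlow
  have hQ1 : 1 ≤ Q := by exact_mod_cast hQ1R
  have hQ0 : (0:ℝ) < Q := by linarith
  clear_value Q
  have h2rQ : 2 * r ≤ Q := by
    have : (2 * r : ℝ) ≤ Q := h2r.trans hQlow
    exact_mod_cast this
  obtain ⟨δ, L, hδ, hlen, hL, ⟨l, hl⟩, hprod⟩ := hsmall Q hQ1 h2rQ h hc z0 hz0 hh0
    (by linarith)
  set A : ℝ := C * Q + 2 with hA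
  have hA0 : 0 < A := by positivity
  have hA2 : 2 ≤ A := by rw [hA]; nlinarith
  have hAQ : A ≤ (C + 2) * Q := by rw [hA]; nlinarith
  have hlenA : (L.length : ℝ) + 1 ≤ A := by rw [hA]; linarith
  clear_value A
  set n : ℕ := M / (6 * Q) with hn
  have hnlow : (M:ℝ) / (6 * Q) ≤ (n:ℝ) + 1 := by
    rw [div_le_iff₀ (by positivity)]
    have h1 := Nat.lt_mul_div_succ M (by omega : 0 < 6 * Q)
    have h2 : (M:ℝ) ≤ (6 * Q : ℕ) * ((M / (6*Q) + 1 : ℕ) : ℝ) := by exact_mod_cast h1.le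
    rw [← hn] at h2
    push_cast at h2
    linarith
  have hnup : (n:ℝ) * (6 * Q) ≤ M := by
    have h1 := Nat.div_mul_le_self M (6 * Q)
    rw [← hn] at h1
    exact_mod_cast h1
  clear_value n
  have hnM : (n:ℝ) + 1 ≤ 2 * M := by
    have h1 : (n:ℝ) * 1 ≤ n * (6 * Q) := mul_le_mul_of_nonneg_left (by linarith) (Nat.cast_nonneg n)
    linarith
  have hn1 : (0:ℝ) < (n:ℝ) + 1 := by positivity
  -- powers
  have hM3e : (M:ℝ)^(3 * e) ≤ M := by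
    calc (M:ℝ)^(3*e) ≤ (M:ℝ)^(1:ℝ) := rpow_le_rpow_of_exponent_le hM1' (by rw [he]; linarith)
      _ = M := rpow_one _
  have hcube : ((M:ℝ)^e)^3 = (M:ℝ)^(3*e) := by
    rw [← rpow_natCast, ← rpow_mul hM0.le]; congr 1; push_cast; ring
  have hQ3 : (Q:ℝ)^3 ≤ 8 * M := by
    calc (Q:ℝ)^3 ≤ (2 * (M:ℝ)^e)^3 := pow_le_pow_left₀ hQ0.le hQup 3
      _ = 8 * (M:ℝ)^(3*e) := by rw [mul_pow, hcube]; norm_num
      _ ≤ 8 * M := by linarith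
  -- `288 A ≤ (n+1)^2`
  have hbig : 288 * A ≤ ((n:ℝ)+1)^2 := by
    have h1 : ((M:ℝ) / (6*Q))^2 ≤ ((n:ℝ)+1)^2 := pow_le_pow_left₀ (by positivity) hnlow 2
    refine le_trans ?_ h1
    rw [div_pow, le_div_iff₀ (by positivity)]
    calc 288 * A * (6 * (Q:ℝ))^2 ≤ 288 * ((C+2) * Q) * (6 * (Q:ℝ))^2 := by gcongr
      _ = (288 * (C + 2) * 36) * (Q:ℝ)^3 := by ring
      _ ≤ (288 * (C + 2) * 36) * (8 * M) := by gcongr
      _ = K * M := by rw [hK]; ring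
      _ ≤ M * M := by
          refine mul_le_mul_of_nonneg_right ?_ hM0.le
          linarith
      _ = (M:ℝ)^2 := by ring
  have hnpos : 0 < n := by
    refine Nat.pos_of_ne_zero fun h0 => ?_
    rw [h0] at hbig
    norm_num at hbig
    linarith
  set τ : ℝ := 288 * A / ((n:ℝ)+1)^2 with hτ
  have hτ0 : 0 < τ := by positivity
  have hτ1 : τ ≤ 1 := by
    rw [hτ, div_le_one (by positivity)]; exact hbig
  -- `δ ≤ τ/8`
  have hδτ : |δ| ≤ τ / 8 := by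
    refine hδ.trans ?_
    have h1 : (M:ℝ)^3 ≤ (Q:ℝ)^(r+1) := by
      calc (M:ℝ)^3 = (M:ℝ)^(3:ℝ) := by rw [← rpow_natCast]; norm_num
        _ ≤ (M:ℝ)^(e * ((r:ℝ)+1)) := rpow_le_rpow_of_exponent_le hM1' hr3
        _ = ((M:ℝ)^e)^(r+1) := by
            rw [← rpow_natCast, ← rpow_mul hM0.le]; push_cast; rfl
        _ ≤ (Q:ℝ)^(r+1) := pow_le_pow_left₀ (by positivity) hQlow _
    have h2 : C / (Q:ℝ)^(r+1) ≤ C / (M:ℝ)^3 :=
      div_le_div_of_nonneg_left hC.le (by positivity) h1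
    refine h2.trans ?_
    rw [hτ]
    have h3 : 72 / (M:ℝ)^2 / 4 ≤ 288 * A / ((n:ℝ)+1)^2 / 8 := by
      rw [div_div, div_div, div_le_div_iff₀ (by positivity) (by positivity)]
      have h4 : ((n:ℝ)+1)^2 ≤ (2*M)^2 := pow_le_pow_left₀ hn1.le hnM 2
      nlinarith [sq_nonneg (M:ℝ)]
    refine le_trans ?_ h3
    rw [div_div, div_le_div_iff₀ (by positivity) (by positivity)]
    have h5 : C ≤ 18 * M := by linarith
    calc C * ((M:ℝ)^2 * 4) ≤ (18 * M) * ((M:ℝ)^2 * 4) := by gcongr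
      _ = 72 * (M:ℝ)^3 := by ring
  have hTM : 2 * (n:ℝ) * (3 * Q) ≤ M := by linarith
  have hmain := pairs_lower h hc hτ0 hτ1 (by linarith : (1:ℝ) ≤ 3 * Q) hnpos hTM L hL l hl hδτ
    hprod P hP
  -- extract
  have hE : 3 * (((L.length : ℝ) + 1) * (48 / (τ * ((n:ℝ) + 1)^2))) ≤ 1/2 := by
    have h1 : τ * ((n:ℝ) + 1)^2 = 288 * A := by rw [hτ]; field_simp
    rw [h1]
    calc 3 * (((L.length : ℝ) + 1) * (48 / (288 * A))) ≤ 3 * (A * (48 / (288 * A))) := by gcongr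
      _ = 1/2 := by field_simp; norm_num
  have hP1 : 1/2 ≤ 3 * (A * (P.card * τ)) := by
    have h1 : 3 * (((L.length : ℝ) + 1) * (P.card * τ + 48 / (τ * ((n:ℝ) + 1)^2))) =
        3 * (((L.length : ℝ) + 1) * (P.card * τ)) +
        3 * (((L.length : ℝ) + 1) * (48 / (τ * ((n:ℝ) + 1)^2))) := by ring
    rw [h1] at hmain
    have h2 : 3 * (((L.length : ℝ) + 1) * (P.card * τ)) ≤ 3 * (A * (P.card * τ)) := by gcongr
    linarith
  have hP2 : ((n:ℝ)+1)^2 ≤ 1728 * A^2 * P.card := by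
    rw [hτ] at hP1
    have h1 : 3 * (A * (P.card * (288 * A / ((n:ℝ)+1)^2))) = 864 * A^2 * P.card / ((n:ℝ)+1)^2 := by
      ring
    rw [h1, le_div_iff₀ (by positivity)] at hP1
    linarith
  have hP3 : (M:ℝ)^2 ≤ 62208 * (C+2)^2 * (Q:ℝ)^4 * P.card := by
    have h1 : ((M:ℝ) / (6*Q))^2 ≤ ((n:ℝ)+1)^2 := pow_le_pow_left₀ (by positivity) hnlow 2
    rw [div_pow, div_le_iff₀ (by positivity)] at h1
    calc (M:ℝ)^2 ≤ ((n:ℝ)+1)^2 * (6 * (Q:ℝ))^2 := h1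
      _ ≤ (1728 * A^2 * P.card) * (6 * (Q:ℝ))^2 := by gcongr
      _ ≤ (1728 * ((C+2) * Q)^2 * P.card) * (6 * (Q:ℝ))^2 := by gcongr
      _ = _ := by ring
  have hQ4 : (Q:ℝ)^4 ≤ 16 * (M:ℝ)^ε := by
    calc (Q:ℝ)^4 ≤ (2 * (M:ℝ)^e)^4 := pow_le_pow_left₀ hQ0.le hQup 4
      _ = 16 * (M:ℝ)^(4*e) := by
          rw [mul_pow]
          have : ((M:ℝ)^e)^4 = (M:ℝ)^(4*e) := by
            rw [← rpow_natCast, ← rpow_mul hM0.le]; congr 1; push_cast; ring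
          rw [this]; norm_num
      _ ≤ 16 * (M:ℝ)^ε := by
          have := rpow_le_rpow_of_exponent_le hM1' (by rw [he]; linarith : 4 * e ≤ ε)
          linarith
  have hMsplit : (M:ℝ)^(2 - ε) * (M:ℝ)^ε = (M:ℝ)^2 := by
    rw [← rpow_add hM0]
    have : (2 - ε + ε) = (2:ℝ) := by ring
    rw [this, rpow_two]
  have hMε : 0 < (M:ℝ)^ε := rpow_pos_of_pos hM0 _
  have hP4 : (M:ℝ)^(2-ε) * (M:ℝ)^ε ≤ (62208 * (C+2)^2 * 16 * P.card) * (M:ℝ)^ε := by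
    rw [hMsplit]
    calc (M:ℝ)^2 ≤ 62208 * (C+2)^2 * (Q:ℝ)^4 * P.card := hP3
      _ ≤ 62208 * (C+2)^2 * (16 * (M:ℝ)^ε) * P.card := by gcongr
      _ = _ := by ring
  have hP5 := le_of_mul_le_mul_right hP4 hMε
  rw [div_mul_eq_mul_div, one_mul, div_le_iff₀ (by positivity)]
  linarith

end Pool.Agent.H41.Eis
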