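import Pool.Agent.H41.Eis.Chain
import Pool.Agent.H73.Cub.Greedy

/-!
Existence of short lists of small elements whose product has value `-1` and tiny argument
(using the greedy construction of `Pool.Agent.H73.Cub.Greedy`).
-/

set_option autoImplicit false

namespace Pool.Agent.H41.Eis

open Finset Real
open scoped ENNReal

/-- A list of elements of norm at most `T` realising the rotation `d` (mod `π`) with sign `σ`. -/
def Rz (h : ℤ × ℤ → ℤ) (T d : ℝ) (σ : ℤˣ) (L : List (ℤ × ℤ)) : Prop :=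
  (∀ s ∈ L, s ≠ 0 ∧ ‖toC s‖ ≤ T) ∧ (∃ l : ℤ, sumAng L = d + l * π) ∧ prodH h L = (σ : ℤ)

/-- Cost of a rotation. -/
noncomputable def costW (h : ℤ × ℤ → ℤ) (T : ℝ) : ℝ → ℤˣ → ℝ≥0∞ := fun d σ =>
  ⨅ (L : List (ℤ × ℤ)) (_ : Rz h T d σ L), (L.length : ℝ≥0∞)

lemma costW_le (h : ℤ × ℤ → ℤ) (T : ℝ) {d : ℝ} {σ : ℤˣ} {L : List (ℤ × ℤ)} (hL : Rz h T d σ L) :
    costW h T d σ ≤ (L.length : ℝ≥0∞) := iInf₂_le L hL

lemma ang_econj (z : ℤ × ℤ) : ∃ l : ℤ, ang (econj z) = - ang z + l * π := by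
  unfold ang
  rw [toC_econj, Complex.arg_conj]
  split_ifs with h
  · refine ⟨2, ?_⟩
    rw [h]; push_cast; ring
  · exact ⟨0, by simp⟩

lemma Rz.conj {h : ℤ × ℤ → ℤ} (hc : IsChar h) {T : ℝ} : ∀ {L : List (ℤ × ℤ)} {d : ℝ} {σ : ℤˣ},
    Rz h T d σ L → Rz h T (-d) σ (L.map econj) := by
  rintro L d σ ⟨h1, ⟨l, hl⟩, h3⟩
  refine ⟨?_, ?_, ?_⟩
  · intro s hs
    obtain ⟨t, ht, rfl⟩ := List.mem_map.1 hs
    obtain ⟨ht1, ht2⟩ := h1 t ht
    refine ⟨econj_ne_zero ht1, ?_⟩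
    rw [toC_econj, Complex.norm_conj]; exact ht2
  · have key : ∀ L : List (ℤ × ℤ), ∃ l : ℤ, sumAng (L.map econj) = - sumAng L + l * π := by
      intro L
      induction L with
      | nil => exact ⟨0, by simp [sumAng]⟩
      | cons s L ih =>
        obtain ⟨l1, hl1⟩ := ih
        obtain ⟨l2, hl2⟩ := ang_econj s
        refine ⟨l1 + l2, ?_⟩
        simp only [sumAng, List.map_cons, List.sum_cons] at hl1 ⊢
        rw [hl1, hl2]
        push_cast; ring
    obtain ⟨l', hl'⟩ := key L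
    refine ⟨l' - l, ?_⟩
    rw [hl', hl]
    push_cast; ring
  · rw [← h3]
    have key : ∀ L : List (ℤ × ℤ), (∀ s ∈ L, s ≠ 0 ∧ ‖toC s‖ ≤ T) →
        prodH h (L.map econj) = prodH h L := by
      intro L
      induction L with
      | nil => intro _; rfl
      | cons s L ih =>
        intro hL
        have := ih (fun t ht => hL t (List.mem_cons_of_mem _ ht))
        simp only [prodH, List.map_cons, List.prod_cons] at this ⊢
        rw [this, hc.conj s (hL s List.mem_cons_self).1]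
    exact key L h1

lemma Rz.append {h : ℤ × ℤ → ℤ} {T : ℝ} {L1 L2 : List (ℤ × ℤ)} {d1 d2 : ℝ} {σ1 σ2 : ℤˣ}
    (h1 : Rz h T d1 σ1 L1) (h2 : Rz h T d2 σ2 L2) : Rz h T (d1 + d2) (σ1 * σ2) (L1 ++ L2) := by
  obtain ⟨a1, ⟨l1, b1⟩, c1⟩ := h1
  obtain ⟨a2, ⟨l2, b2⟩, c2⟩ := h2
  refine ⟨?_, ⟨l1 + l2, ?_⟩, ?_⟩
  · intro s hs
    rcases List.mem_append.1 hs with h | h
    · exact a1 s h
    · exact a2 s h
  · simp only [sumAng, List.map_append, List.sum_append] at b1 b2 ⊢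
    rw [b1, b2]; push_cast; ring
  · simp only [prodH, List.map_append, List.prod_append] at c1 c2 ⊢
    rw [c1, c2]; push_cast; rfl

lemma cost_costW (h : ℤ × ℤ → ℤ) (hc : IsChar h) (T : ℝ) : H73.Cub.Cost (costW h T) where
  add := by
    intro d1 d2 h1 h2
    unfold costW
    rw [ENNReal.iInf_add]
    refine le_iInf fun L1 => ?_
    rw [ENNReal.iInf_add]
    refine le_iInf fun hL1 => ?_
    rw [ENNReal.add_iInf]
    refine le_iInf fun L2 => ?_
    rw [ENNReal.add_iInf]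
    refine le_iInf fun hL2 => ?_
    refine (iInf₂_le (L1 ++ L2) (hL1.append hL2)).trans ?_
    rw [List.length_append]
    push_cast
    exact le_rfl
  neg := by
    intro d σ
    unfold costW
    refine le_iInf₂ fun L hL => ?_
    refine (iInf₂_le (L.map econj) (hL.conj hc)).trans ?_
    rw [List.length_map]
  zero := by
    have : Rz h T 0 1 [] := ⟨by simp, ⟨0, by simp [sumAng]⟩, by simp [prodH]⟩
    have h1 := costW_le h T this
    simpa using h1

/-- **Small rotation with value `-1`.** -/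
theorem small_list (r : ℕ) : ∃ C : ℝ, 0 < C ∧ ∀ Q : ℕ, 1 ≤ Q → 2 * r ≤ Q →
    ∀ (h : ℤ × ℤ → ℤ), IsChar h → ∀ z0 : ℤ × ℤ, z0 ≠ 0 → h z0 = -1 → ‖toC z0‖ ≤ 3 * Q →
    ∃ (δ : ℝ) (L : List (ℤ × ℤ)), |δ| ≤ C / (Q:ℝ)^(r+1) ∧ (L.length : ℝ) ≤ C * Q + 1 ∧
      (∀ s ∈ L, s ≠ 0 ∧ ‖toC s‖ ≤ 3 * Q) ∧ (∃ l : ℤ, sumAng L = δ + l * π) ∧ prodH h L = -1 := by
  obtain ⟨C, hC, hsm⟩ := H73.Cub.small_element r
  refine ⟨C, hC, fun Q hQ hrQ h hc z0 hz0 hh0 hz0Q => ?_⟩
  have hQR : (1:ℝ) ≤ Q := by exact_mod_cast hQ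
  have hval : ∀ z : ℤ × ℤ, z ≠ 0 → ∃ σ : ℤˣ, h z = (σ : ℤ) := by
    intro z hz
    rcases hc.val z hz with h1 | h1
    · exact ⟨1, by rw [h1]; simp⟩
    · exact ⟨-1, by rw [h1]; simp⟩
  have hth : ∀ i : ℕ, Q ≤ i → i ≤ Q + r → ∃ σ, costW h (3 * Q) (H73.Cub.th i) σ ≤ 1 := by
    intro i hi hi'
    have hz : (((i:ℤ) - 1, 1) : ℤ × ℤ) ≠ 0 := by
      intro h0
      have := congrArg Prod.snd h0
      simp at this
    obtain ⟨σ, hσ⟩ := hval _ hz
    refine ⟨σ, ?_⟩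
    have htoC : toC ((i:ℤ) - 1, 1) = ((i:ℝ) : ℂ) + H73.Cub.om := by
      apply Complex.ext
      · rw [toC_re]; simp [H73.Cub.om]; ring
      · rw [toC_im]; simp [H73.Cub.om]
    have hR : Rz h (3 * Q) (H73.Cub.th i) σ [((i:ℤ) - 1, 1)] := by
      refine ⟨?_, ⟨0, ?_⟩, ?_⟩
      · intro s hs
        rw [List.mem_singleton] at hs
        subst hs
        refine ⟨hz, ?_⟩
        rw [htoC]
        have hi1 : (1:ℝ) ≤ (i:ℝ) := by exact_mod_cast (by omega : 1 ≤ i)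
        refine (H73.Cub.norm_add_om_le hi1).trans ?_
        have : i ≤ 3 * Q := by omega
        exact_mod_cast this
      · simp only [sumAng, List.map_cons, List.map_nil, List.sum_cons, List.sum_nil, add_zero,
          Int.cast_zero, zero_mul]
        unfold ang H73.Cub.th
        rw [htoC]
      · simp only [prodH, List.map_cons, List.map_nil, List.prod_cons, List.prod_nil, mul_one]
        exact hσ
    have := costW_le h (3 * Q) hR
    simpa using this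
  have hz0W : costW h (3 * Q) (ang z0) (-1) ≤ 1 := by
    have hR : Rz h (3 * Q) (ang z0) (-1) [z0] := by
      refine ⟨?_, ⟨0, ?_⟩, ?_⟩
      · intro s hs
        rw [List.mem_singleton] at hs
        subst hs
        exact ⟨hz0, hz0Q⟩
      · simp [sumAng]
      · simp [prodH, hh0]
    have := costW_le h (3 * Q) hR
    simpa using this
  obtain ⟨δ, hδ, hδW⟩ := hsm Q hQ hrQ (costW h (3*Q)) (cost_costW h hc _) 1 hth (ang z0)
    (Complex.abs_arg_le_pi _) hz0W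
  rw [mul_one] at hδW
  have hlt : costW h (3 * Q) δ (-1) < ENNReal.ofReal (C * Q + 1) := by
    refine hδW.trans_lt ?_
    rw [ENNReal.ofReal_lt_ofReal_iff (by positivity)]
    linarith
  unfold costW at hlt
  rw [iInf_lt_iff] at hlt
  obtain ⟨L, hL⟩ := hlt
  rw [iInf_lt_iff] at hL
  obtain ⟨hR, hlen⟩ := hL
  refine ⟨δ, L, hδ, ?_, hR.1, hR.2.1, ?_⟩
  · rw [← ENNReal.ofReal_natCast, ENNReal.ofReal_lt_ofReal_iff (by positivity)] at hlen
    exact hlen.le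
  · rw [hR.2.2]; simp

end Pool.Agent.H41.Eis
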