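import Pool.Agent.H41.Eis.Edges

/-!
Angular windows for Eisenstein integers.
-/

set_option autoImplicit false

namespace Pool.Agent.H41.Eis

open Finset Real

/-- Real part after rotation by `-θ`. -/
noncomputable def Xc (θ : ℝ) (z : ℤ × ℤ) : ℝ := (toC z).re * cos θ + (toC z).im * sin θ

/-- Imaginary part after rotation by `-θ`. -/
noncomputable def Yc (θ : ℝ) (z : ℤ × ℤ) : ℝ := (toC z).im * cos θ - (toC z).re * sin θ

/-- Angle of `z`. -/
noncomputable def ang (z : ℤ × ℤ) : ℝ := Complex.arg (toC z)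

lemma XY_sq (θ : ℝ) (z : ℤ × ℤ) : Xc θ z ^ 2 + Yc θ z ^ 2 = nrm z := by
  have h1 := normSq_toC z
  rw [Complex.normSq_apply] at h1
  rw [← h1]
  simp only [Xc, Yc]
  have := sin_sq_add_cos_sq θ
  linear_combination ((toC z).re^2 + (toC z).im^2) * this

lemma toC_polar (z : ℤ × ℤ) : (toC z).re = ‖toC z‖ * cos (ang z) ∧
    (toC z).im = ‖toC z‖ * sin (ang z) := by
  constructor
  · exact (Complex.norm_mul_cos_arg (toC z)).symm
  · exact (Complex.norm_mul_sin_arg (toC z)).symm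

lemma Xc_eq (θ : ℝ) (z : ℤ × ℤ) : Xc θ z = ‖toC z‖ * cos (ang z - θ) := by
  obtain ⟨h1, h2⟩ := toC_polar z
  rw [Xc, h1, h2, cos_sub]; ring

lemma Yc_eq (θ : ℝ) (z : ℤ × ℤ) : Yc θ z = ‖toC z‖ * sin (ang z - θ) := by
  obtain ⟨h1, h2⟩ := toC_polar z
  rw [Yc, h1, h2, sin_sub]; ring

lemma Xc_rot (θ : ℝ) (z s : ℤ × ℤ) : Xc (θ + ang s) (emul z s) = ‖toC s‖ * Xc θ z := by
  obtain ⟨h1, h2⟩ := toC_polar s
  rw [Xc, toC_emul, Complex.mul_re, Complex.mul_im, h1, h2, Xc, cos_add, sin_add]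
  have := sin_sq_add_cos_sq (ang s)
  linear_combination (‖toC s‖ * ((toC z).re * cos θ + (toC z).im * sin θ)) * this

lemma Yc_rot (θ : ℝ) (z s : ℤ × ℤ) : Yc (θ + ang s) (emul z s) = ‖toC s‖ * Yc θ z := by
  obtain ⟨h1, h2⟩ := toC_polar s
  rw [Yc, toC_emul, Complex.mul_re, Complex.mul_im, h1, h2, Yc, cos_add, sin_add]
  have := sin_sq_add_cos_sq (ang s)
  linear_combination (‖toC s‖ * ((toC z).im * cos θ - (toC z).re * sin θ)) * this

/-- Windows. -/
def W (τ θ : ℝ) (z : ℤ × ℤ) : Prop := |Yc θ z| ≤ τ * |Xc θ z|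

lemma W_rot {τ θ : ℝ} {z s : ℤ × ℤ} (h : W τ θ z) : W τ (θ + ang s) (emul z s) := by
  unfold W at h ⊢
  rw [Xc_rot, Yc_rot, abs_mul, abs_mul, abs_of_nonneg (norm_nonneg (toC s))]
  calc ‖toC s‖ * |Yc θ z| ≤ ‖toC s‖ * (τ * |Xc θ z|) := mul_le_mul_of_nonneg_left h (norm_nonneg _)
    _ = _ := by ring

lemma W_shift {τ θ δ : ℝ} {z : ℤ × ℤ} (hτ0 : 0 < τ) (hτ1 : τ ≤ 1) (hδ : |δ| ≤ τ / 8)
    (h : W (τ/2) θ z) : W τ (θ + δ) z := by
  unfold W at h ⊢
  have hX : Xc (θ + δ) z = Xc θ z * cos δ + Yc θ z * sin δ := by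
    simp only [Xc, Yc, cos_add, sin_add]; ring
  have hY : Yc (θ + δ) z = Yc θ z * cos δ - Xc θ z * sin δ := by
    simp only [Xc, Yc, cos_add, sin_add]; ring
  have hs : |sin δ| ≤ |δ| := abs_sin_le_abs
  have hc : 1 - δ^2/2 ≤ cos δ := one_sub_sq_div_two_le_cos
  have hc1 : |cos δ| ≤ 1 := abs_cos_le_one δ
  set x := |Xc θ z| with hx
  have hx0 : 0 ≤ x := abs_nonneg _
  have hδ0 : 0 ≤ |δ| := abs_nonneg _
  have hδ1 : |δ| ≤ 1/8 := by linarith
  have hδ2 : δ^2 ≤ 1/64 := by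
    rw [← sq_abs]; nlinarith
  have hYabs : |Yc (θ + δ) z| ≤ (5/8 * τ) * x := by
    rw [hY]
    calc |Yc θ z * cos δ - Xc θ z * sin δ| ≤ |Yc θ z * cos δ| + |Xc θ z * sin δ| := abs_sub _ _
      _ = |Yc θ z| * |cos δ| + x * |sin δ| := by rw [abs_mul, abs_mul]
      _ ≤ |Yc θ z| * 1 + x * |δ| :=
          add_le_add (mul_le_mul_of_nonneg_left hc1 (abs_nonneg _)) (mul_le_mul_of_nonneg_left hs hx0)
      _ ≤ (τ/2) * x + x * (τ/8) := by
          rw [mul_one]; exact add_le_add h (mul_le_mul_of_nonneg_left hδ hx0)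
      _ = _ := by ring
  have hXabs : (7/8) * x ≤ |Xc (θ + δ) z| := by
    rw [hX]
    have h1 : |Xc θ z * cos δ| - |Yc θ z * sin δ| ≤ |Xc θ z * cos δ + Yc θ z * sin δ| := by
      have := abs_sub_abs_le_abs_sub (Xc θ z * cos δ) (-(Yc θ z * sin δ))
      rwa [abs_neg, sub_neg_eq_add] at this
    refine le_trans ?_ h1
    rw [abs_mul, abs_mul]
    have h2 : (127/128 : ℝ) ≤ |cos δ| := by
      refine le_trans ?_ (le_abs_self _)
      linarith
    have h3 : |Yc θ z| * |sin δ| ≤ (1/2 * x) * (1/8) := by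
      refine mul_le_mul ?_ (hs.trans hδ1) (abs_nonneg _) (by positivity)
      refine h.trans ?_
      exact mul_le_mul_of_nonneg_right (by linarith) hx0
    have h4 : x * (127/128) ≤ x * |cos δ| := mul_le_mul_of_nonneg_left h2 hx0
    nlinarith
  calc |Yc (θ + δ) z| ≤ (5/8 * τ) * x := hYabs
    _ ≤ τ * ((7/8) * x) := by nlinarith
    _ ≤ τ * |Xc (θ + δ) z| := mul_le_mul_of_nonneg_left hXabs hτ0.le

lemma W_int_pi {τ θ : ℝ} {z : ℤ × ℤ} (l : ℤ) (h : W τ θ z) : W τ (θ + l * π) z := by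
  unfold W at h ⊢
  have hX : |Xc (θ + l * π) z| = |Xc θ z| := by
    rw [Xc_eq, Xc_eq, abs_mul, abs_mul]
    congr 1
    have : ang z - (θ + l * π) = (ang z - θ) - l * π := by ring
    rw [this, cos_sub_int_mul_pi, abs_mul, abs_zpow]
    simp
  have hY : |Yc (θ + l * π) z| = |Yc θ z| := by
    rw [Yc_eq, Yc_eq, abs_mul, abs_mul]
    congr 1
    have : ang z - (θ + l * π) = (ang z - θ) - l * π := by ring
    rw [this, sin_sub_int_mul_pi, abs_mul, abs_zpow]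
    simp
  rw [hX, hY]; exact h

lemma W_mono {τ τ' θ : ℝ} {z : ℤ × ℤ} (hτ : τ ≤ τ') (h : W τ θ z) : W τ' θ z :=
  h.trans (mul_le_mul_of_nonneg_right hτ (abs_nonneg _))

/-- Points in a window are at small angular distance. -/
lemma sin_le_of_W {τ θ : ℝ} {z : ℤ × ℤ} (hτ : 0 ≤ τ) (hz : z ≠ 0) (h : W τ θ z) :
    |sin (θ - ang z)| ≤ τ := by
  unfold W at h
  have hpos : 0 < ‖toC z‖ := norm_pos_iff.2 (toC_ne_zero hz)
  rw [Yc_eq, Xc_eq, abs_mul, abs_mul, abs_of_pos hpos] at h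
  have h1 : |cos (ang z - θ)| ≤ 1 := abs_cos_le_one _
  have h2 : ‖toC z‖ * |sin (ang z - θ)| ≤ ‖toC z‖ * τ := by
    refine h.trans ?_
    calc τ * (‖toC z‖ * |cos (ang z - θ)|) ≤ τ * (‖toC z‖ * 1) := by gcongr
      _ = _ := by ring
  have h3 := le_of_mul_le_mul_left h2 hpos
  have : sin (θ - ang z) = - sin (ang z - θ) := by rw [← sin_neg]; congr 1; ring
  rw [this, abs_neg]; exact h3

/-- The cone with norm bound. -/
def Cone (τ θ M : ℝ) : Set (ℤ × ℤ) :=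
  {z | z ≠ 0 ∧ |Yc θ z| ≤ τ * Xc θ z ∧ ‖toC z‖ ≤ M}

lemma toC_lin (D x y : ℤ) (a b c : ℤ × ℤ) (h1 : D * c.1 = x * a.1 + y * b.1)
    (h2 : D * c.2 = x * a.2 + y * b.2) :
    (D : ℂ) * toC c = x * toC a + y * toC b := by
  simp only [toC]
  have h1' : (D:ℂ) * c.1 = x * a.1 + y * b.1 := by exact_mod_cast h1
  have h2' : (D:ℂ) * c.2 = x * a.2 + y * b.2 := by exact_mod_cast h2
  linear_combination h1' + rho * h2'

lemma Xc_lin (θ : ℝ) (D x y : ℤ) (a b c : ℤ × ℤ) (h1 : D * c.1 = x * a.1 + y * b.1)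
    (h2 : D * c.2 = x * a.2 + y * b.2) : (D:ℝ) * Xc θ c = x * Xc θ a + y * Xc θ b := by
  have h := toC_lin D x y a b c h1 h2
  have hre := congrArg Complex.re h
  have him := congrArg Complex.im h
  simp only [Complex.mul_re, Complex.mul_im, Complex.add_re, Complex.add_im, Complex.intCast_re,
    Complex.intCast_im, zero_mul, sub_zero, add_zero] at hre him
  simp only [Xc]
  linear_combination cos θ * hre + sin θ * him

lemma Yc_lin (θ : ℝ) (D x y : ℤ) (a b c : ℤ × ℤ) (h1 : D * c.1 = x * a.1 + y * b.1)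
    (h2 : D * c.2 = x * a.2 + y * b.2) : (D:ℝ) * Yc θ c = x * Yc θ a + y * Yc θ b := by
  have h := toC_lin D x y a b c h1 h2
  have hre := congrArg Complex.re h
  have him := congrArg Complex.im h
  simp only [Complex.mul_re, Complex.mul_im, Complex.add_re, Complex.add_im, Complex.intCast_re,
    Complex.intCast_im, zero_mul, sub_zero, add_zero] at hre him
  simp only [Yc]
  linear_combination cos θ * him - sin θ * hre

/-- Points of the cone are stable under nonnegative combinations. -/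
lemma cone_comb {τ θ M K : ℝ} (hM : 0 ≤ M) {D x y : ℤ} {a b c : ℤ × ℤ}
    (ha : a ∈ Cone τ θ M) (hb : b ∈ Cone τ θ M) (hD : 0 < D) (hx : 0 ≤ x) (hy : 0 ≤ y)
    (hxy : (x:ℝ) + y ≤ D * K) (hc0 : c ≠ 0) (h1 : D * c.1 = x * a.1 + y * b.1)
    (h2 : D * c.2 = x * a.2 + y * b.2) : c ∈ Cone τ θ (K * M) := by
  obtain ⟨_, ha1, ha2⟩ := ha
  obtain ⟨_, hb1, hb2⟩ := hb
  have hD' : (0:ℝ) < D := by exact_mod_cast hD
  have hx' : (0:ℝ) ≤ x := by exact_mod_cast hx
  have hy' : (0:ℝ) ≤ y := by exact_mod_cast hy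
  refine ⟨hc0, ?_, ?_⟩
  · have hX := Xc_lin θ D x y a b c h1 h2
    have hY := Yc_lin θ D x y a b c h1 h2
    have h3 : (D:ℝ) * |Yc θ c| ≤ D * (τ * Xc θ c) := by
      calc (D:ℝ) * |Yc θ c| = |(D:ℝ) * Yc θ c| := by rw [abs_mul, abs_of_pos hD']
        _ = |x * Yc θ a + y * Yc θ b| := by rw [hY]
        _ ≤ |(x:ℝ) * Yc θ a| + |(y:ℝ) * Yc θ b| := abs_add_le _ _
        _ = x * |Yc θ a| + y * |Yc θ b| := by
            rw [abs_mul, abs_mul, abs_of_nonneg hx', abs_of_nonneg hy']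
        _ ≤ x * (τ * Xc θ a) + y * (τ * Xc θ b) :=
            add_le_add (mul_le_mul_of_nonneg_left ha1 hx') (mul_le_mul_of_nonneg_left hb1 hy')
        _ = τ * (x * Xc θ a + y * Xc θ b) := by ring
        _ = τ * (D * Xc θ c) := by rw [hX]
        _ = _ := by ring
    exact le_of_mul_le_mul_left h3 hD'
  · have h := toC_lin D x y a b c h1 h2
    have h3 : (D:ℝ) * ‖toC c‖ ≤ D * (K * M) := by
      calc (D:ℝ) * ‖toC c‖ = ‖(D:ℂ) * toC c‖ := by
            rw [norm_mul, Complex.norm_intCast, abs_of_pos hD']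
        _ = ‖(x:ℂ) * toC a + (y:ℂ) * toC b‖ := by rw [h]
        _ ≤ ‖(x:ℂ) * toC a‖ + ‖(y:ℂ) * toC b‖ := norm_add_le _ _
        _ = x * ‖toC a‖ + y * ‖toC b‖ := by
            rw [norm_mul, norm_mul, Complex.norm_intCast, Complex.norm_intCast, abs_of_nonneg hx',
              abs_of_nonneg hy']
        _ ≤ x * M + y * M :=
            add_le_add (mul_le_mul_of_nonneg_left ha2 hx') (mul_le_mul_of_nonneg_left hb2 hy')
        _ = (x + y) * M := by ring
        _ ≤ (D * K) * M := mul_le_mul_of_nonneg_right hxy hM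
        _ = _ := by ring
    exact le_of_mul_le_mul_left h3 hD'

lemma cone_triClosed (τ θ M : ℝ) (hM : 0 ≤ M) : TriClosed (Cone τ θ M) := by
  intro a ha b hb D x y hD hx hy hxy c hc h1 h2
  have := cone_comb (K := 1) hM ha hb hD hx hy (by rw [mul_one]; exact_mod_cast hxy) hc h1 h2
  rwa [one_mul] at this

/-- A window containing two vectors with different values contains a mixed bad pair. -/
lemma bad_pair_of_window (h : ℤ × ℤ → ℤ)
    (hscale : ∀ (n : ℤ) (z : ℤ × ℤ), n ≠ 0 → z ≠ 0 → h (n * z.1, n * z.2) = h z)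
    {τ θ M : ℝ} (hM : 0 ≤ M) {a b : ℤ × ℤ} (ha0 : a ≠ 0) (hb0 : b ≠ 0)
    (ha : W τ θ a) (hb : W τ θ b) (haM : ‖toC a‖ ≤ M) (hbM : ‖toC b‖ ≤ M) (hab : h a ≠ h b) :
    ∃ q q' : ℤ × ℤ, q ≠ 0 ∧ q' ≠ 0 ∧ edet q q' = 1 ∧ h q ≠ h q' ∧
      ((TypeB q ∧ ¬ TypeB q') ∨ (¬ TypeB q ∧ TypeB q')) ∧ W τ θ q ∧
      ‖toC q‖ ≤ 3 * M ∧ ‖toC q'‖ ≤ 3 * M := by
  -- put both in the cone by changing signs
  have hsign : ∀ z : ℤ × ℤ, z ≠ 0 → W τ θ z → ‖toC z‖ ≤ M → ∃ w ∈ Cone τ θ M, h w = h z := by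
    intro z hz hW hzM
    unfold W at hW
    rcases le_or_gt 0 (Xc θ z) with h0 | h0
    · refine ⟨z, ⟨hz, ?_, hzM⟩, rfl⟩
      rwa [abs_of_nonneg h0] at hW
    · have hlin1 : (1:ℤ) * (-z.1) = (-1) * z.1 + 0 * z.1 := by ring
      have hlin2 : (1:ℤ) * (-z.2) = (-1) * z.2 + 0 * z.2 := by ring
      have hX : Xc θ (-z.1, -z.2) = - Xc θ z := by
        have := Xc_lin θ 1 (-1) 0 z z (-z.1, -z.2) hlin1 hlin2
        push_cast at this; linarith
      have hY : Yc θ (-z.1, -z.2) = - Yc θ z := by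
        have := Yc_lin θ 1 (-1) 0 z z (-z.1, -z.2) hlin1 hlin2
        push_cast at this; linarith
      have hn : ‖toC (-z.1, -z.2)‖ = ‖toC z‖ := by
        have : toC (-z.1, -z.2) = - toC z := by simp only [toC]; push_cast; ring
        rw [this, norm_neg]
      refine ⟨(-z.1, -z.2), ⟨?_, ?_, ?_⟩, ?_⟩
      · intro h1
        apply hz
        apply Prod.ext
        · have := congrArg Prod.fst h1; simpa using this
        · have := congrArg Prod.snd h1; simpa using this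
      · rw [hX, hY, abs_neg]
        rwa [abs_of_neg h0] at hW
      · rw [hn]; exact hzM
      · have := hscale (-1) z (by norm_num) hz
        simpa using this
  obtain ⟨a', ha', hha⟩ := hsign a ha0 ha haM
  obtain ⟨b', hb', hhb⟩ := hsign b hb0 hb hbM
  obtain ⟨p, hp, p', hp', hdet, hne⟩ := farey_path (Cone τ θ M) (cone_triClosed τ θ M hM) h hscale
    a' b' ha' hb' ha'.1 hb'.1 (by rw [hha, hhb]; exact hab)
  have hne0 : ∀ u v : ℤ × ℤ, edet u v = 1 → u ≠ 0 ∧ v ≠ 0 := by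
    intro u v huv
    constructor
    · rintro rfl; simp [edet] at huv
    · rintro rfl; simp [edet] at huv
  -- the enlarged set, allowing zero
  set T : Set (ℤ × ℤ) := {z | |Yc θ z| ≤ τ * Xc θ z ∧ ‖toC z‖ ≤ 3 * M} with hT
  have hST : Cone τ θ M ⊆ T := by
    rintro z ⟨_, h2, h3⟩
    exact ⟨h2, h3.trans (by linarith)⟩
  have hcomb : ∀ (x y : ℤ), 0 ≤ x → 0 ≤ y → x + y ≤ 3 → ∀ u ∈ Cone τ θ M, ∀ v ∈ Cone τ θ M,
      (x * u.1 + y * v.1, x * u.2 + y * v.2) ∈ T := by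
    intro x y hx hy hxy u hu v hv
    by_cases h0 : ((x * u.1 + y * v.1, x * u.2 + y * v.2) : ℤ × ℤ) = 0
    · rw [h0]
      refine ⟨?_, ?_⟩
      · simp [Xc, Yc, toC]
      · simp [toC]; exact hM
    · have := cone_comb (K := 3) (D := 1) (x := x) (y := y)
        (c := (x * u.1 + y * v.1, x * u.2 + y * v.2)) hM hu hv one_pos hx hy
        (by push_cast; rw [one_mul]; exact_mod_cast hxy) h0 (by ring) (by ring)
      exact ⟨this.2.1, this.2.2⟩
  obtain ⟨q, hq, q', hq', h1, h2, h3⟩ := mixed_pair (Cone τ θ M) T h hST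
    (fun u hu v hv => by
      have := hcomb 1 1 zero_le_one zero_le_one (by norm_num) u hu v hv
      simpa using this)
    (fun u hu v hv => by
      have := hcomb 2 1 (by norm_num) zero_le_one (by norm_num) u hu v hv
      simpa using this)
    p p' hp hp' hdet hne
  refine ⟨q, q', (hne0 q q' h1).1, (hne0 q q' h1).2, h1, h2, h3, ?_, hq.2, hq'.2⟩
  unfold W
  have hX0 : τ * Xc θ q ≤ τ * |Xc θ q| ∨ τ < 0 := by
    rcases le_or_gt 0 τ with h | h
    · left; exact mul_le_mul_of_nonneg_left (le_abs_self _) h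
    · right; exact h
  rcases hX0 with h | h
  · exact hq.1.trans h
  · -- negative τ: impossible unless zero
    exfalso
    unfold W at ha
    have : τ * |Xc θ a| ≤ 0 := mul_nonpos_of_nonpos_of_nonneg h.le (abs_nonneg _)
    have hY0 : |Yc θ a| = 0 := le_antisymm (ha.trans this) (abs_nonneg _)
    have hX0 : |Xc θ a| = 0 := by
      by_contra hne
      have h5 : 0 < |Xc θ a| := lt_of_le_of_ne (abs_nonneg _) (Ne.symm hne)
      have : τ * |Xc θ a| < 0 := mul_neg_of_neg_of_pos h h5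
      linarith [abs_nonneg (Yc θ a)]
    have h6 := XY_sq θ a
    rw [abs_eq_zero.1 hY0, abs_eq_zero.1 hX0] at h6
    have h7 : nrm a = 0 := by
      have : ((nrm a : ℤ) : ℝ) = 0 := by rw [← h6]; ring
      exact_mod_cast this
    exact ha0 ((nrm_eq_zero_iff a).1 h7)

end Pool.Agent.H41.Eis
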